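import Mathlib
import Pool.Agent.Helper503.WA
import Pool.Agent.H713R2.Ext1

/-!
# Superattracting parameters of bounded period and escaping parameters
-/

set_option autoImplicit false

open Complex Metric Set Filter Topology N62a1eb23

namespace Pool.Agent.Q186.Cen

open Pool.Agent.H712R2 Pool.Agent.H713R2

/-- The Schottky bound. -/
noncomputable def SB (t : ℝ) : ℝ := Real.exp (Real.pi * Real.exp (Real.pi * ((194 + 65) / (1 - t))))

theorem SB_ge {t : ℝ} : 1 ≤ SB t := by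
  unfold SB
  rw [← Real.exp_zero]
  apply Real.exp_le_exp.2
  positivity

/-- Holomorphic discs without superattracting parameters of period at most `N + 1`. -/
theorem disc {d : ℕ} (hd : 2 ≤ d) {γ : ℂ → ℂ} (hγ : DifferentiableOn ℂ γ (ball 0 1)) {N : ℕ}
    (hno : ∀ w ∈ ball (0 : ℂ) 1, ∀ p : ℕ, 1 ≤ p → p ≤ N + 1 → P d p (γ w) ≠ 0)
    (h0 : 1 / 16 ≤ ‖γ 0‖) (hb : ∀ k, ‖P d k (γ 0)‖ ≤ 2) {k : ℕ} (hk1 : 1 ≤ k) (hkN : k ≤ N)
    {w : ℂ} (hw : w ∈ ball (0 : ℂ) 1) :
    ‖P d k (γ w)‖ ≤ max 1 ‖γ w‖ * SB ‖w‖ := by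
  have hd0 : d ≠ 0 := by omega
  have hγ0 : ∀ z ∈ ball (0 : ℂ) 1, -γ z ≠ 0 := by
    intro z hz
    have h1 := hno z hz 1 le_rfl (by omega)
    rw [P_one hd] at h1
    exact neg_ne_zero.2 h1
  obtain ⟨g, hg, hge⟩ := Pool.Agent.Helper503.WAC.exists_log (f := fun z => -γ z) hγ.neg hγ0
  set ζ : ℂ → ℂ := fun z => exp (g z / d) with hζ
  have hdC : (d : ℂ) ≠ 0 := by exact_mod_cast hd0
  have hζd : DifferentiableOn ℂ ζ (ball 0 1) := by
    apply DifferentiableOn.cexp
    exact hg.div_const _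
  have hζ0 : ∀ z, ζ z ≠ 0 := fun z => exp_ne_zero _
  have hζp : ∀ z ∈ ball (0 : ℂ) 1, ζ z ^ d = -γ z := by
    intro z hz
    rw [hζ]
    simp only []
    rw [← Complex.exp_nat_mul, mul_div_cancel₀ _ hdC]
    exact hge z hz
  have hζn : ∀ z ∈ ball (0 : ℂ) 1, ‖ζ z‖ ^ d = ‖γ z‖ := by
    intro z hz
    rw [← norm_pow, hζp z hz, norm_neg]
  -- the function omitting 1 and -1
  set u : ℂ → ℂ := fun z => 2 * (P d k (γ z) / ζ z) - 1 with hu
  have hud : DifferentiableOn ℂ u (ball 0 1) := by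
    apply DifferentiableOn.sub_const
    apply DifferentiableOn.const_mul
    refine DifferentiableOn.div ?_ hζd fun z _ => hζ0 z
    exact (differentiable_P d k).comp_differentiableOn hγ
  have h1 : ∀ z ∈ ball (0 : ℂ) 1, u z ≠ 1 := by
    intro z hz h
    have h2 : P d k (γ z) / ζ z = 1 := by
      have : 2 * (P d k (γ z) / ζ z) - 1 = 1 := h
      linear_combination this / 2
    rw [div_eq_one_iff_eq (hζ0 z)] at h2
    apply hno z hz (k + 1) (by omega) (by omega)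
    rw [P_succ, h2, hζp z hz, neg_add_cancel]
  have h2 : ∀ z ∈ ball (0 : ℂ) 1, u z ≠ -1 := by
    intro z hz h
    have h2 : P d k (γ z) / ζ z = 0 := by
      have : 2 * (P d k (γ z) / ζ z) - 1 = -1 := h
      linear_combination this / 2
    rw [div_eq_zero_iff, or_iff_left (hζ0 z)] at h2
    exact hno z hz k hk1 (by omega) h2
  have hz0 : (0 : ℂ) ∈ ball (0 : ℂ) 1 := mem_ball_self one_pos
  have hζ00 : 1 / 16 ≤ ‖ζ 0‖ := by
    by_contra hlt
    rw [not_le] at hlt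
    have h3 : ‖ζ 0‖ ^ d ≤ ‖ζ 0‖ ^ 1 :=
      pow_le_pow_of_le_one (norm_nonneg _) (by linarith) (by omega)
    rw [hζn 0 hz0, pow_one] at h3
    linarith
  have hu0 : ‖u 0‖ ≤ 65 := by
    have h3 : ‖P d k (γ 0) / ζ 0‖ ≤ 32 := by
      rw [norm_div, div_le_iff₀ (by linarith)]
      have := hb k
      linarith
    calc ‖u 0‖ ≤ ‖2 * (P d k (γ 0) / ζ 0)‖ + ‖(1 : ℂ)‖ := norm_sub_le _ _
      _ ≤ 2 * 32 + 1 := by
          rw [norm_mul, norm_one, Complex.norm_two]
          linarith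
      _ = 65 := by norm_num
  have hsch := Pool.Agent.Helper503.WAC.schottkyU hud h1 h2 w hw
  have hw1 : ‖w‖ < 1 := by simpa using hw
  have h5 : ‖u w‖ ≤ SB ‖w‖ := by
    refine hsch.trans ?_
    unfold SB
    have h6 : 0 < 1 - ‖w‖ := by linarith
    gcongr
  have h6 : ‖P d k (γ w) / ζ w‖ ≤ SB ‖w‖ := by
    have h7 : P d k (γ w) / ζ w = (u w + 1) / 2 := by
      simp only [hu]; ring
    rw [h7, norm_div, Complex.norm_two, div_le_iff₀ two_pos]
    have h8 : ‖u w + 1‖ ≤ ‖u w‖ + ‖(1 : ℂ)‖ := norm_add_le _ _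
    rw [norm_one] at h8
    have h9 : 1 ≤ SB ‖w‖ := SB_ge
    linarith
  have h7 : ‖ζ w‖ ≤ max 1 ‖γ w‖ := by
    by_cases h8 : ‖ζ w‖ ≤ 1
    · exact h8.trans (le_max_left _ _)
    · rw [not_le] at h8
      have h9 : ‖ζ w‖ ^ 1 ≤ ‖ζ w‖ ^ d := pow_le_pow_right₀ h8.le (by omega)
      rw [hζn w hw, pow_one] at h9
      exact h9.trans (le_max_right _ _)
  rw [norm_div, div_le_iff₀ (norm_pos_iff.2 (hζ0 w))] at h6
  calc ‖P d k (γ w)‖ ≤ SB ‖w‖ * ‖ζ w‖ := h6
    _ ≤ SB ‖w‖ * max 1 ‖γ w‖ := by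
        apply mul_le_mul_of_nonneg_left h7
        exact le_trans zero_le_one SB_ge
    _ = _ := mul_comm _ _

/-- The disc of radius `1/4` is in the Multibrot set. -/
theorem quarter {d : ℕ} (hd : 2 ≤ d) {c : ℂ} (hc : ‖c‖ ≤ 1 / 4) : c ∈ multibrotSet d := by
  rw [mem_multibrot_iff hd]
  have h : ∀ k, ‖P d k c‖ ≤ 1 / 2 := by
    intro k
    induction k with
    | zero => rw [P_zero, norm_zero]; norm_num
    | succ k ih =>
      rw [P_succ]
      refine (norm_add_le _ _).trans ?_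
      rw [norm_pow]
      have h1 : ‖P d k c‖ ^ d ≤ ‖P d k c‖ ^ 2 :=
        pow_le_pow_of_le_one (norm_nonneg _) (by linarith) hd
      have h2 : ‖P d k c‖ ^ 2 ≤ (1 / 2) ^ 2 := by gcongr
      norm_num at h2
      linarith
  intro k
  have := h k
  linarith

/-- A disc automorphism moving the centre. -/
theorem moeb {a : ℂ} (ha : ‖a‖ < 1) {w : ℂ} (hw : ‖w‖ < 1) :
    1 + (starRingEnd ℂ) a * w ≠ 0 ∧ ‖(w + a) / (1 + (starRingEnd ℂ) a * w)‖ < 1 := by
  have h1 : ‖(starRingEnd ℂ) a * w‖ < 1 := by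
    rw [norm_mul, RCLike.norm_conj]
    nlinarith [norm_nonneg a, norm_nonneg w]
  have h2 : 1 + (starRingEnd ℂ) a * w ≠ 0 := by
    intro h
    have h3 : (starRingEnd ℂ) a * w = -1 := by linear_combination h
    rw [h3, norm_neg, norm_one] at h1
    exact lt_irrefl _ h1
  refine ⟨h2, ?_⟩
  rw [norm_div, div_lt_one (norm_pos_iff.2 h2)]
  have h3 : ‖w + a‖ ^ 2 < ‖1 + (starRingEnd ℂ) a * w‖ ^ 2 := by
    rw [← Complex.normSq_eq_norm_sq, ← Complex.normSq_eq_norm_sq]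
    have h4 : Complex.normSq (1 + (starRingEnd ℂ) a * w) - Complex.normSq (w + a) =
        (1 - Complex.normSq a) * (1 - Complex.normSq w) := by
      simp only [Complex.normSq_apply, Complex.add_re, Complex.add_im, Complex.mul_re,
        Complex.mul_im, Complex.one_re, Complex.one_im, Complex.conj_re, Complex.conj_im]
      ring
    have h5 : 0 < (1 - Complex.normSq a) * (1 - Complex.normSq w) := by
      rw [Complex.normSq_eq_norm_sq, Complex.normSq_eq_norm_sq]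
      have h6 : ‖a‖ ^ 2 < 1 := by nlinarith [norm_nonneg a]
      have h7 : ‖w‖ ^ 2 < 1 := by nlinarith [norm_nonneg w]
      exact mul_pos (by linarith) (by linarith)
    linarith
  exact lt_of_pow_lt_pow_left₀ 2 (norm_nonneg _) h3

/-- The bound of the escape times. -/
noncomputable def BE (ε : ℝ) : ℝ := SB (1 / (1 + ε))

/-- Discs which contain a boundary point and an escaping parameter, in general position: if
`c₁` is in the Multibrot set, `c₂` in the disc of centre `x` and radius `R`, both at distance at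
most `R / (1 + ε)` from the centre `x`, one of them being `x`. -/
theorem in_disc {d : ℕ} (hd : 2 ≤ d) {x c₁ c₂ : ℂ} {R ε : ℝ} (hR : 0 < R) (hε : 0 < ε) {N : ℕ}
    (hno : ∀ t ∈ ball x R, ∀ p : ℕ, 1 ≤ p → p ≤ N + 1 → P d p t ≠ 0)
    (h1 : ‖c₁ - x‖ * (1 + ε) ≤ R) (h2 : ‖c₂ - x‖ * (1 + ε) ≤ R) (hx : x = c₁ ∨ x = c₂)
    (hm : c₁ ∈ multibrotSet d) (h4 : 1 / 16 ≤ ‖c₁‖) {k : ℕ} (hk1 : 1 ≤ k) (hkN : k ≤ N) :
    ‖P d k c₂‖ ≤ max 1 ‖c₂‖ * BE ε := by
  have hRc : (R : ℂ) ≠ 0 := by exact_mod_cast hR.ne'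
  have hε1 : 0 < 1 + ε := by linarith
  set a : ℂ := (c₁ - x) / R with ha
  have hb := (mem_multibrot_iff hd c₁).1 hm
  have han : ‖a‖ ≤ 1 / (1 + ε) := by
    rw [ha, norm_div, Complex.norm_real, Real.norm_of_nonneg hR.le, div_le_div_iff₀ hR hε1]
    linarith
  have hlt : 1 / (1 + ε) < 1 := by rw [div_lt_one hε1]; linarith
  have ha1 : ‖a‖ < 1 := han.trans_lt hlt
  set γ : ℂ → ℂ := fun w => x + R * ((w + a) / (1 + (starRingEnd ℂ) a * w)) with hγ
  have hγd : DifferentiableOn ℂ γ (ball 0 1) := by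
    apply DifferentiableOn.const_add
    apply DifferentiableOn.const_mul
    refine DifferentiableOn.div (by fun_prop) (by fun_prop) ?_
    intro w hw
    exact (moeb ha1 (by simpa using hw)).1
  have hγm : ∀ w ∈ ball (0 : ℂ) 1, γ w ∈ ball x R := by
    intro w hw
    have h5 := (moeb ha1 (by simpa using hw : ‖w‖ < 1)).2
    rw [mem_ball, dist_eq_norm, hγ]
    simp only []
    rw [add_sub_cancel_left, norm_mul, Complex.norm_real, Real.norm_of_nonneg hR.le]
    nlinarith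
  have hγ0 : γ 0 = c₁ := by
    simp only [hγ, ha, zero_add, mul_zero, add_zero, div_one]
    field_simp
    ring
  have hfin : ∃ w ∈ ball (0 : ℂ) 1, γ w = c₂ ∧ ‖w‖ ≤ 1 / (1 + ε) := by
    rcases hx with hx | hx
    · have ha0 : a = 0 := by rw [ha, hx, sub_self, zero_div]
      refine ⟨(c₂ - x) / R, ?_, ?_, ?_⟩
      · rw [mem_ball_zero_iff, norm_div, Complex.norm_real, Real.norm_of_nonneg hR.le,
          div_lt_one hR]
        have h6 : ‖c₂ - x‖ * (1 + ε) ≤ R := h2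
        rcases (norm_nonneg (c₂ - x)).eq_or_lt with h7 | h7
        · rw [← h7]; exact hR
        · nlinarith
      · simp only [hγ, ha0, map_zero, zero_mul, add_zero, div_one]
        field_simp
        ring
      · rw [norm_div, Complex.norm_real, Real.norm_of_nonneg hR.le, div_le_div_iff₀ hR hε1]
        linarith
    · refine ⟨-a, ?_, ?_, ?_⟩
      · rw [mem_ball_zero_iff, norm_neg]; exact ha1
      · simp only [hγ, neg_add_cancel, zero_div, mul_zero, add_zero]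
        exact hx
      · rw [norm_neg]; exact han
  obtain ⟨w, hw, hwc, hwn⟩ := hfin
  have h6 := disc hd hγd (fun w hw p hp1 hpN => hno _ (hγm w hw) p hp1 hpN)
    (by rw [hγ0]; exact h4) (by rw [hγ0]; exact hb) hk1 hkN hw
  rw [hwc] at h6
  refine h6.trans ?_
  have hw1 : ‖w‖ < 1 := by simpa using hw
  have h7 : SB ‖w‖ ≤ BE ε := by
    unfold BE SB
    have h8 : 0 < 1 - 1 / (1 + ε) := by linarith
    gcongr
  apply mul_le_mul_of_nonneg_left h7
  exact le_trans zero_le_one (le_max_left _ _)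

end Pool.Agent.Q186.Cen
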