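import Pool.Agent.Q186.Cen.Unif

/-!
# Green's function of the Multibrot sets
-/

set_option autoImplicit false

open Complex Metric Set Filter Topology N62a1eb23

namespace Pool.Agent.Q186.Cen

open Pool.Agent.H712R2 Pool.Agent.H713R2

theorem green_mem {d : ℕ} (hd : 2 ≤ d) {c : ℂ} (hc : c ∈ multibrotSet d) : green d c = 0 := by
  have hd1 : (1 : ℝ) < d := by exact_mod_cast (by omega : 1 < d)
  have hb := (mem_multibrot_iff hd c).1 hc
  have h1 : Tendsto (fun n : ℕ => Real.posLog ‖(fun z : ℂ => z ^ d + c)^[n] c‖ / (d : ℝ) ^ n)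
      atTop (𝓝 0) := by
    have h2 : Tendsto (fun n : ℕ => Real.log 2 * ((d : ℝ)⁻¹) ^ n) atTop (𝓝 0) := by
      have := (tendsto_pow_atTop_nhds_zero_of_lt_one (inv_nonneg.2 (by linarith))
        (inv_lt_one_of_one_lt₀ hd1)).const_mul (Real.log 2)
      rwa [mul_zero] at this
    refine squeeze_zero (fun n => div_nonneg Real.posLog_nonneg (by positivity)) (fun n => ?_) h2
    rw [iter_P hd, inv_pow, ← div_eq_mul_inv]
    apply div_le_div_of_nonneg_right _ (by positivity)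
    have h3 : Real.posLog ‖P d (n + 1) c‖ ≤ Real.posLog 2 :=
      Real.monotoneOn_posLog (norm_nonneg _) (by norm_num : (0 : ℝ) ≤ 2) (hb (n + 1))
    rwa [Real.posLog_eq_log (by rw [abs_of_pos two_pos]; norm_num : (1 : ℝ) ≤ |2|)] at h3
  exact h1.limsup_eq

theorem green_psi {d : ℕ} (hd : 2 ≤ d) {ψ : ℂ → ℂ} (hψ : IsExteriorMap (multibrotSet d) ψ)
    {w : ℂ} (hw : 1 < ‖w‖) : green d (ψ w) = Real.log ‖w‖ := by
  have hd1 : (1 : ℝ) < d := by exact_mod_cast (by omega : 1 < d)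
  obtain ⟨β, hβ⟩ := exists_beta (d := d) hd
  obtain ⟨hx, hx0⟩ := inv_mem_ball hw
  obtain ⟨κ, hκ⟩ : ∃ κ, κ = (-(2 * Real.log 2 * ‖w⁻¹‖ / (1 - ‖w⁻¹‖))) := ⟨_, rfl⟩
  obtain ⟨c, hc⟩ : ∃ c, c = ψ w := ⟨_, rfl⟩
  have hcβ : c = w * β w⁻¹ := by rw [hc, exteriorMap_unique hβ hψ hw]
  rw [← hc]
  have hw0 : 0 < ‖w‖ := by linarith
  have hlw : 0 < Real.log ‖w‖ := Real.log_pos hw
  have hP : ∀ n : ℕ, ‖P d (n + 1) c‖ = ‖w‖ ^ (d ^ n) * ‖BB d β n w⁻¹‖ := by
    intro n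
    rw [BB_eq hd β n w⁻¹ hx0, inv_inv, ← hcβ, norm_mul, norm_pow, norm_inv, inv_pow,
      mul_inv_cancel_left₀ (pow_ne_zero _ hw0.ne')]
  have hPl : ∀ n : ℕ, Real.log ‖P d (n + 1) c‖ = (d : ℝ) ^ n * Real.log ‖w‖ +
      Real.log ‖BB d β n w⁻¹‖ := by
    intro n
    have h1 : ‖BB d β n w⁻¹‖ ≠ 0 := norm_ne_zero_iff.2 (Pool.Agent.W677.MB.BB_ne hd hβ n hx)
    rw [hP n, Real.log_mul (pow_ne_zero _ hw0.ne') h1, Real.log_pow]
    push_cast
    ring
  have hlo : ∀ n : ℕ, κ ≤ Real.log ‖BB d β n w⁻¹‖ := by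
    intro n
    have h1 := Pool.Agent.W677.MB.BB_lower hd hβ n hx
    rw [← hκ] at h1
    have h2 := Real.log_le_log (Real.exp_pos _) h1
    rwa [Real.log_exp] at h2
  have hup : ∀ n : ℕ, Real.log ‖BB d β n w⁻¹‖ ≤ Real.log 2 := by
    intro n
    have h1 := AR.BB_le_two hd hβ n hx
    exact Real.log_le_log (norm_pos_iff.2 (Pool.Agent.W677.MB.BB_ne hd hβ n hx)) h1
  have hinv : Tendsto (fun n : ℕ => ((d : ℝ)⁻¹) ^ n) atTop (𝓝 0) :=
    tendsto_pow_atTop_nhds_zero_of_lt_one (inv_nonneg.2 (by linarith)) (inv_lt_one_of_one_lt₀ hd1)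
  have hlim : Tendsto (fun n : ℕ => Real.log ‖P d (n + 1) c‖ / (d : ℝ) ^ n) atTop
      (𝓝 (Real.log ‖w‖)) := by
    have h1 : ∀ n : ℕ, Real.log ‖P d (n + 1) c‖ / (d : ℝ) ^ n = Real.log ‖w‖ +
        Real.log ‖BB d β n w⁻¹‖ * ((d : ℝ)⁻¹) ^ n := by
      intro n
      rw [hPl n, inv_pow]
      field_simp
    simp only [h1]
    have h2 : Tendsto (fun n : ℕ => Real.log ‖BB d β n w⁻¹‖ * ((d : ℝ)⁻¹) ^ n) atTop (𝓝 0) := by
      have h3 : Tendsto (fun n : ℕ => κ * ((d : ℝ)⁻¹) ^ n) atTop (𝓝 0) := by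
        simpa using hinv.const_mul κ
      have h4 : Tendsto (fun n : ℕ => Real.log 2 * ((d : ℝ)⁻¹) ^ n) atTop (𝓝 0) := by
        simpa using hinv.const_mul (Real.log 2)
      refine tendsto_of_tendsto_of_tendsto_of_le_of_le h3 h4 (fun n => ?_) fun n => ?_
      · exact mul_le_mul_of_nonneg_right (hlo n) (by positivity)
      · exact mul_le_mul_of_nonneg_right (hup n) (by positivity)
    simpa using h2.const_add (Real.log ‖w‖)
  have hpos : Tendsto (fun n : ℕ => Real.posLog ‖(fun z : ℂ => z ^ d + c)^[n] c‖ / (d : ℝ) ^ n)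
      atTop (𝓝 (Real.log ‖w‖)) := by
    refine hlim.congr' ?_
    filter_upwards [hlim.eventually (lt_mem_nhds hlw)] with n hn
    rw [iter_P hd]
    have h1 : 0 < Real.log ‖P d (n + 1) c‖ := by
      by_contra hcon
      have := div_nonpos_of_nonpos_of_nonneg (not_lt.1 hcon)
        (by positivity : (0 : ℝ) ≤ (d : ℝ) ^ n)
      linarith
    rw [Real.posLog, max_eq_right h1.le]
  exact hpos.limsup_eq

theorem green_pos {d : ℕ} (hd : 2 ≤ d) {c : ℂ} (hc : c ∉ multibrotSet d) : 0 < green d c := by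
  obtain ⟨β, hβ⟩ := exists_beta (d := d) hd
  obtain ⟨x, hx, hx0, hxc⟩ := hβ.surj c hc
  have hx1 : ‖x‖ < 1 := by simpa using hx
  have hw : 1 < ‖x⁻¹‖ := by
    rw [norm_inv]
    exact one_lt_inv_iff₀.2 ⟨norm_pos_iff.2 hx0, hx1⟩
  have hψ := exteriorMap_of_beta hβ
  have h1 := green_psi hd hψ hw
  rw [exteriorMap_unique hβ hψ hw, inv_inv, hxc] at h1
  rw [h1]
  exact Real.log_pos hw

/-- Superattracting parameters are in the Multibrot set, with a superattracting cycle. -/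
theorem cn_cycle {d N : ℕ} (hd : 2 ≤ d) {c : ℂ} (h : Cn d N c) :
    c ∈ multibrotSet d ∧ ∃ p : ℕ, 1 ≤ p ∧ p ≤ N ∧ (fun z : ℂ => z ^ d + c)^[p] 0 = 0 ∧
      IsAttractingCycle (fun z : ℂ => z ^ d + c) p 0 := by
  obtain ⟨p, h1, h2, h3⟩ := h
  have hd0 : d ≠ 0 := by omega
  have h4 : (fun z : ℂ => z ^ d + c)^[p] 0 = 0 := h3
  refine ⟨?_, p, h1, h2, h4, ?_⟩
  · by_contra hc
    exact Pool.Agent.W677.MB.P_ne hc h1 h3
  · have hdiff : Differentiable ℂ (fun z : ℂ => z ^ d + c) := by fun_prop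
    have hit : ∀ k, Differentiable ℂ ((fun z : ℂ => z ^ d + c)^[k]) := fun k => hdiff.iterate k
    refine ⟨h1, h4, (hit p).differentiableAt, ?_⟩
    obtain ⟨q, rfl⟩ := Nat.exists_eq_add_of_le h1
    rw [add_comm, Function.iterate_succ]
    have h5 : deriv ((fun z : ℂ => z ^ d + c)^[q] ∘ fun z : ℂ => z ^ d + c) 0 = 0 := by
      rw [deriv_comp 0 (hit q).differentiableAt hdiff.differentiableAt]
      have h6 : deriv (fun z : ℂ => z ^ d + c) 0 = 0 := by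
        simp [show d - 1 ≠ 0 by omega]
      rw [h6, mul_zero]
    rw [h5, norm_zero]
    exact one_pos

end Pool.Agent.Q186.Cen
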