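import Pool.Agent.Q186.Cen.Grn
import Pool.Agent.Y736.HG8
import Pool.Agent.Y298.CA.Typ

/-!
# The distance to the superattracting parameters of bounded period
-/

set_option autoImplicit false

open Complex Metric Set Filter Topology N62a1eb23

namespace Pool.Agent.Q186.Cen

open Pool.Agent.H712R2 (P P_zero P_one P_succ mem_multibrot_iff)
open Pool.Agent.H713R2
open Pool.Agent.Y298.CA Pool.Agent.Y298.SH.CD


theorem isClosed_Cn (d N : ℕ) : IsClosed {c | Cn d N c} := by
  have h : {c | Cn d N c} = ⋃ p ∈ Finset.Icc 1 N, {c | P d p c = 0} := by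
    ext c
    simp only [Cn, mem_iUnion, Finset.mem_Icc]
    constructor
    · rintro ⟨p, h1, h2, h3⟩
      exact ⟨p, ⟨h1, h2⟩, h3⟩
    · rintro ⟨p, ⟨h1, h2⟩, h3⟩
      exact ⟨p, h1, h2, h3⟩
  rw [h]
  exact isClosed_biUnion_finset fun p _ =>
    isClosed_eq (differentiable_P d p).continuous continuous_const

theorem P_small {d : ℕ} (hd : 2 ≤ d) {c : ℂ} (hc : ‖c‖ ≤ 1 / 4) (k : ℕ) : ‖P d k c‖ ≤ 1 / 2 := by
  induction k with
  | zero => rw [P_zero, norm_zero]; norm_num
  | succ k ih =>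
    rw [P_succ]
    refine (norm_add_le _ _).trans ?_
    rw [norm_pow]
    have h1 : ‖P d k c‖ ^ d ≤ ‖P d k c‖ ^ 2 :=
      pow_le_pow_of_le_one (norm_nonneg _) (by linarith) hd
    have h2 : ‖P d k c‖ ^ 2 ≤ (1 / 2) ^ 2 := by gcongr
    norm_num at h2
    linarith

/-- **The distance to the superattracting parameters of period at most `N + 1` against the
derivatives with respect to the parameter.** -/
theorem cauchyB {d : ℕ} (hd : 2 ≤ d) {c₀ : ℂ} (hc₀ : c₀ ∈ multibrotSet d) (N : ℕ) :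
    ∃ c', Cn d (N + 1) c' ∧ ∀ k ≤ N, ‖c' - c₀‖ * ‖deriv (P d k) c₀‖ ≤ 8 * SB (1 / 2) := by
  have hb := (mem_multibrot_iff hd c₀).1 hc₀
  have hbd : ‖c₀‖ ≤ 2 := by
    have h1 := hb 1
    rwa [P_one hd] at h1
  have hS : 1 ≤ SB (1 / 2) := SB_ge
  have h0 : Cn d (N + 1) 0 := cn_zero hd (by omega)
  have hne : ({c | Cn d (N + 1) c}).Nonempty := ⟨0, h0⟩
  obtain ⟨c', hc', hdist⟩ := (isClosed_Cn d (N + 1)).exists_infDist_eq_dist hne c₀
  have hr : ‖c' - c₀‖ = infDist c₀ {c | Cn d (N + 1) c} := by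
    rw [hdist, dist_comm, dist_eq_norm]
  refine ⟨c', hc', ?_⟩
  intro k hk
  set r := infDist c₀ {c | Cn d (N + 1) c} with hrd
  rw [hr]
  rcases (infDist_nonneg (x := c₀) (s := {c | Cn d (N + 1) c})).eq_or_lt with hr0 | hr0
  · rw [← hrd] at hr0
    rw [← hr0, zero_mul]
    linarith
  rw [← hrd] at hr0
  have hr2 : r ≤ ‖c₀‖ := by
    have h1 := infDist_le_dist_of_mem (x := c₀) (show (0 : ℂ) ∈ {c | Cn d (N + 1) c} from h0)
    rwa [dist_zero_right] at h1
  have hno : ∀ t ∈ ball c₀ r, ¬ Cn d (N + 1) t := by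
    intro t ht h
    have h1 := infDist_le_dist_of_mem (x := c₀) (show t ∈ {c | Cn d (N + 1) c} from h)
    rw [mem_ball, dist_comm] at ht
    linarith
  by_cases hsm : ‖c₀‖ < 1 / 16
  · have h1 : ‖deriv (P d k) c₀‖ ≤ (1 / 2) / (1 / 8) := by
      apply Complex.norm_deriv_le_of_forall_mem_sphere_norm_le (by norm_num)
        (differentiable_P d k).diffContOnCl
      intro z hz
      apply P_small hd
      have h2 : ‖z - c₀‖ = 1 / 8 := by simpa [dist_eq_norm] using hz
      have h3 := norm_add_le (z - c₀) c₀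
      rw [sub_add_cancel] at h3
      linarith
    have h2 : 0 ≤ ‖deriv (P d k) c₀‖ := norm_nonneg _
    nlinarith
  · rw [not_lt] at hsm
    rcases Nat.eq_zero_or_pos k with hk0 | hk0
    · have h1 : deriv (P d k) c₀ = 0 := by
        rw [hk0]
        have : P d 0 = fun _ => (0 : ℂ) := by funext c; exact P_zero d c
        rw [this]; simp
      rw [h1, norm_zero, mul_zero]
      linarith
    · set γ : ℂ → ℂ := fun w => c₀ + r * w with hγ
      have hγm : ∀ w ∈ ball (0 : ℂ) 1, γ w ∈ ball c₀ r := by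
        intro w hw
        rw [mem_ball_zero_iff] at hw
        rw [mem_ball, dist_eq_norm, hγ]
        simp only []
        rw [add_sub_cancel_left, norm_mul, Complex.norm_real, Real.norm_of_nonneg hr0.le]
        nlinarith
      have hγ0 : γ 0 = c₀ := by simp [hγ]
      have h1 : ∀ z ∈ sphere c₀ (r / 2), ‖P d k z‖ ≤ 4 * SB (1 / 2) := by
        intro z hz
        have hz1 : ‖z - c₀‖ = r / 2 := by simpa [dist_eq_norm] using hz
        have hrc : (r : ℂ) ≠ 0 := by exact_mod_cast hr0.ne'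
        have hw1 : ‖(z - c₀) / r‖ = 1 / 2 := by
          rw [norm_div, Complex.norm_real, Real.norm_of_nonneg hr0.le, hz1]
          field_simp
        have hwz : γ ((z - c₀) / r) = z := by
          simp only [hγ]
          field_simp
          ring
        have h2 := disc hd (γ := γ) (N := N) (by fun_prop)
          (fun w hw p hp1 hp2 h => hno _ (hγm w hw) ⟨p, hp1, hp2, h⟩)
          (by rw [hγ0]; exact hsm) (by rw [hγ0]; exact hb) (k := k) hk0 hk
          (w := (z - c₀) / r) (by rw [mem_ball_zero_iff, hw1]; norm_num)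
        rw [hwz, hw1] at h2
        refine h2.trans ?_
        apply mul_le_mul_of_nonneg_right _ (by linarith)
        have h3 := norm_add_le (z - c₀) c₀
        rw [sub_add_cancel] at h3
        exact max_le (by norm_num) (by linarith)
      have h2 := Complex.norm_deriv_le_of_forall_mem_sphere_norm_le (by positivity)
        (differentiable_P d k).diffContOnCl h1
      rw [le_div_iff₀ (by positivity)] at h2
      linarith

/-- **Superattracting parameters are far from parameters with a positive exponent.** -/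
theorem far {d : ℕ} (hd2 : 2 ≤ d) {χ : ℝ} {c₀ : ℂ} (h : Lyap d χ c₀) {ε : ℝ} (hε : 0 < ε) :
    ∃ K : ℝ, 0 < K ∧ ∀ p : ℕ, 1 ≤ p → ∀ c : ℂ, P d p c = 0 →
      K * Real.exp (-(χ + 3 * ε) * p) ≤ ‖c - c₀‖ := by
  have hχ : 0 < χ := h.1
  obtain ⟨⟨C₁, lam, hc⟩, hlya⟩ := Pool.Agent.Y674.CA.lya d χ c₀ hd2 h
  obtain ⟨C, hC, H⟩ := hlya ε hε
  obtain ⟨B, Ca, hPC⟩ := Pool.Agent.Y434.CA.pa d C₁ lam (Real.exp ε) hd2 hc.C1 hc.lam1
    (by rw [← Real.exp_zero]; exact Real.exp_lt_exp.2 hε)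
  have hCa1 := hPC.Ca1
  have hCaB := hPC.CaB
  have hB1 : 1 ≤ B := hCa1.trans hCaB
  obtain ⟨D, hD⟩ : ∃ D, D = B * C ^ 2 := ⟨_, rfl⟩
  have hC0 : 0 < C := by linarith
  have hD0 : 0 < D := by rw [hD]; positivity
  refine ⟨1 / D, by positivity, ?_⟩
  intro p hp c hcp
  by_contra hcon
  rw [not_le] at hcon
  obtain ⟨q, rfl⟩ := Nat.exists_eq_add_of_le' hp
  -- the orbit of `c₀` does not hit zero
  have e2 : P d (q + 1) c₀ = zz d c₀ q := by
    rw [P_succ_eq hd2]
    rfl
  have e1 : P d (q + 1) c = (Pool.Agent.TH279.MD.f d c)^[q] c := by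
    rw [P_succ_eq hd2]
  obtain ⟨s, hs⟩ : ∃ s, s = ‖c - c₀‖ := ⟨_, rfl⟩
  have hs0 : 0 < s := by
    rw [hs, norm_pos_iff, sub_ne_zero]
    rintro rfl
    rw [e2] at hcp
    exact hc.zz_ne q hcp
  rw [← hs] at hcon
  have hpass : ∀ j < q + 1, B * Real.exp ε ^ j * s * Pd d c₀ j ≤ ‖zz d c₀ j‖ := by
    intro j hj
    obtain ⟨-, h2, h3⟩ := H j
    have h5 : C * Real.exp (ε * j) * (B * Real.exp ε ^ j * s * Pd d c₀ j) ≤ 1 := by
      calc C * Real.exp (ε * j) * (B * Real.exp ε ^ j * s * Pd d c₀ j)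
          ≤ C * Real.exp (ε * j) * (B * Real.exp ε ^ j * s * (C * Real.exp ((χ + ε) * j))) := by
            gcongr
        _ = D * s * Real.exp ((χ + 3 * ε) * j) := by
            rw [hD, ← Real.exp_nat_mul]
            have e : Real.exp ((χ + 3 * ε) * j) = Real.exp (ε * j) * Real.exp (j * ε) *
                Real.exp ((χ + ε) * j) := by
              rw [← Real.exp_add, ← Real.exp_add]
              congr 1
              ring
            rw [e]
            ring
        _ ≤ D * (1 / D * Real.exp (-(χ + 3 * ε) * ((q + 1 : ℕ) : ℝ))) *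
            Real.exp ((χ + 3 * ε) * j) := by
            gcongr
        _ = Real.exp ((χ + 3 * ε) * ((j : ℝ) - ((q + 1 : ℕ) : ℝ))) := by
            rw [← mul_assoc D, mul_one_div_cancel hD0.ne', one_mul, ← Real.exp_add]
            congr 1
            ring
        _ ≤ 1 := by
            rw [← Real.exp_zero]
            apply Real.exp_le_exp.2
            have h6 : (j : ℝ) ≤ ((q + 1 : ℕ) : ℝ) := by exact_mod_cast hj.le
            have h7 : 0 < χ + 3 * ε := by linarith
            nlinarith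
    exact le_of_mul_le_mul_left (h5.trans h3) (by positivity)
  have hk := (hPC.pass c₀ hc c s (q + 1) hs0 hs.ge hpass c (mem_ball_self hs0) q (by omega)).2.2.2
    (by omega)
  rw [← e1, hcp, zero_sub, norm_neg] at hk
  have h8 : 0 < ‖zz d c₀ q‖ := norm_pos_iff.2 (hc.zz_ne q)
  linarith

theorem lim_lin (a b : ℝ) : Tendsto (fun N : ℕ => (a + b * N) / N) atTop (𝓝 b) := by
  have h1 : Tendsto (fun N : ℕ => a / N + b) atTop (𝓝 (0 + b)) :=
    (tendsto_const_div_atTop_nhds_zero_nat a).add_const b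
  rw [zero_add] at h1
  refine h1.congr' ?_
  filter_upwards [eventually_gt_atTop 0] with N hN
  have : (N : ℝ) ≠ 0 := by exact_mod_cast hN.ne'
  field_simp

/-- **The exponent.** -/
theorem exponent {d : ℕ} (hd2 : 2 ≤ d) {χ : ℝ} {c₀ : ℂ} (h : Lyap d χ c₀) :
    Tendsto (fun N : ℕ => Real.log (infDist c₀ {c | Cn d N c}) / N) atTop (𝓝 (-χ)) := by
  have hχ : 0 < χ := h.1
  have hne : ∀ N : ℕ, 1 ≤ N → ({c | Cn d N c}).Nonempty := fun N hN => ⟨0, cn_zero hd2 hN⟩
  have hlow : ∀ ε : ℝ, 0 < ε → ∃ K : ℝ, 0 < K ∧ ∀ N : ℕ, 1 ≤ N →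
      K * Real.exp (-(χ + 3 * ε) * N) ≤ infDist c₀ {c | Cn d N c} := by
    intro ε hε
    obtain ⟨K, hK, H⟩ := far hd2 h hε
    refine ⟨K, hK, fun N hN => ?_⟩
    rw [le_infDist (hne N hN)]
    rintro c ⟨p, hp1, hp2, hp3⟩
    rw [dist_comm, dist_eq_norm]
    refine le_trans ?_ (H p hp1 c hp3)
    apply mul_le_mul_of_nonneg_left _ hK.le
    apply Real.exp_le_exp.2
    have h6 : (p : ℝ) ≤ N := by exact_mod_cast hp2
    have h7 : 0 < χ + 3 * ε := by linarith
    nlinarith
  rw [tendsto_order]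
  constructor
  · intro a ha
    obtain ⟨K, hK, H⟩ := hlow ((-χ - a) / 6) (by linarith)
    have h1 := lim_lin (Real.log K) (-(χ + 3 * ((-χ - a) / 6)))
    have h2 : a < -(χ + 3 * ((-χ - a) / 6)) := by linarith
    filter_upwards [h1.eventually (lt_mem_nhds h2), eventually_ge_atTop 1] with N hN1 hN2
    refine hN1.trans_le ?_
    apply div_le_div_of_nonneg_right _ (Nat.cast_nonneg N)
    have h3 := Real.log_le_log (by positivity) (H N hN2)
    rwa [Real.log_mul hK.ne' (Real.exp_pos _).ne', Real.log_exp] at h3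
  · intro a ha
    obtain ⟨ε, hε⟩ : ∃ ε, ε = (a + χ) / 2 := ⟨_, rfl⟩
    have hε0 : 0 < ε := by rw [hε]; linarith
    obtain ⟨⟨C₁, lam, hc⟩, hlya⟩ := Pool.Agent.Y674.CA.lya d χ c₀ hd2 h
    obtain ⟨C, hC, H⟩ := hlya ε hε0
    obtain ⟨κ₀, ε', J, hκ₀, hε', hgrow⟩ := hc.grow
    have hC0 : 0 < C := by linarith
    obtain ⟨A, hA⟩ : ∃ A, A = 8 * SB (1 / 2) * C / κ₀ := ⟨_, rfl⟩
    have hS : 1 ≤ SB (1 / 2) := SB_ge
    have hA0 : 0 < A := by rw [hA]; positivity
    have h1 := lim_lin (Real.log A + 2 * (χ - ε)) (-(χ - ε))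
    have h2 : -(χ - ε) < a := by rw [hε]; linarith
    obtain ⟨K, hK, Hl⟩ := hlow 1 one_pos
    filter_upwards [h1.eventually (gt_mem_nhds h2), eventually_ge_atTop (J + 2)] with N hN1 hN2
    refine lt_of_le_of_lt ?_ hN1
    apply div_le_div_of_nonneg_right _ (Nat.cast_nonneg N)
    obtain ⟨M, rfl⟩ := Nat.exists_eq_add_of_le' (show 2 ≤ N by omega)
    obtain ⟨c', hc', hk⟩ := cauchyB hd2 h.2.1 (M + 1)
    have h3 := hk (M + 1) le_rfl
    have h4 : κ₀ * Pd d c₀ M ≤ ‖deriv (P d (M + 1)) c₀‖ := by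
      apply hgrow c₀ hc c₀ (by rw [sub_self, norm_zero]; exact hε'.le) M (by omega)
      intro j _
      have h5 : Pd d c₀ j = ‖deriv ((Pool.Agent.TH279.MD.f d c₀)^[j]) c₀‖ := rfl
      rw [h5]
      linarith [norm_nonneg (deriv ((Pool.Agent.TH279.MD.f d c₀)^[j]) c₀)]
    obtain ⟨h5, -, -⟩ := H M
    have hinf : infDist c₀ {c | Cn d (M + 2) c} ≤ ‖c' - c₀‖ := by
      have := infDist_le_dist_of_mem (x := c₀) (show c' ∈ {c | Cn d (M + 2) c} from hc')
      rwa [dist_comm, dist_eq_norm] at this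
    have hpos : 0 < infDist c₀ {c | Cn d (M + 2) c} :=
      lt_of_lt_of_le (by positivity) (Hl (M + 2) (by omega))
    have h6 : infDist c₀ {c | Cn d (M + 2) c} ≤ A * Real.exp (-(χ - ε) * M) := by
      have h7 : infDist c₀ {c | Cn d (M + 2) c} * (κ₀ * Pd d c₀ M) ≤ 8 * SB (1 / 2) :=
        (mul_le_mul hinf h4 (mul_nonneg hκ₀.le (Pd_nonneg d c₀ M)) (norm_nonneg _)).trans h3
      have h8 : Real.exp ((χ - ε) * M) / C ≤ Pd d c₀ M := by
        rw [div_le_iff₀ hC0]
        linarith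
      have h9 : infDist c₀ {c | Cn d (M + 2) c} * (κ₀ * (Real.exp ((χ - ε) * M) / C)) ≤
          8 * SB (1 / 2) := by
        refine le_trans ?_ h7
        gcongr
      have h10 : 0 < κ₀ * (Real.exp ((χ - ε) * M) / C) := by positivity
      rw [← le_div_iff₀ h10] at h9
      refine h9.trans (le_of_eq ?_)
      rw [hA, neg_mul, Real.exp_neg]
      field_simp
    have h7 := Real.log_le_log hpos h6
    rw [Real.log_mul hA0.ne' (Real.exp_pos _).ne', Real.log_exp] at h7
    refine h7.trans (le_of_eq ?_)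
    push_cast
    ring

end Pool.Agent.Q186.Cen
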