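import Pool.Agent.Q186.Cen.Lyap
import Pool.Agent.Y298.CD.Fin
import Pool.Agent.Y298.SH.Trans2

/-!
# The distance to the superattracting parameters of bounded period, in terms of the derivatives
-/

set_option autoImplicit false

open Complex Metric Set Filter Topology N62a1eb23

namespace Pool.Agent.Q186.Cen

open Pool.Agent.H712R2 (P P_zero P_one P_succ mem_multibrot_iff)
open Pool.Agent.H713R2
open Pool.Agent.Y298.CA Pool.Agent.Y298.SH.CD

theorem pow_diff {d : ℕ} (hd : 1 ≤ d) {x z : ℂ} {m : ℝ} (hx : ‖x‖ ≤ m) (hz : ‖z‖ ≤ m) :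
    ‖x ^ d - z ^ d‖ ≤ d * m ^ (d - 1) * ‖x - z‖ := by
  have hm : 0 ≤ m := (norm_nonneg _).trans hx
  rw [← Commute.geom_sum₂_mul (Commute.all x z) d, norm_mul]
  apply mul_le_mul_of_nonneg_right _ (norm_nonneg _)
  refine (norm_sum_le _ _).trans ?_
  have h1 : ∀ i ∈ Finset.range d, ‖x ^ i * z ^ (d - 1 - i)‖ ≤ m ^ (d - 1) := by
    intro i hi
    rw [Finset.mem_range] at hi
    rw [norm_mul, norm_pow, norm_pow]
    calc ‖x‖ ^ i * ‖z‖ ^ (d - 1 - i) ≤ m ^ i * m ^ (d - 1 - i) := by gcongr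
      _ = m ^ (d - 1) := by
        rw [← pow_add]
        congr 1
        omega
  refine (Finset.sum_le_sum h1).trans ?_
  rw [Finset.sum_const, Finset.card_range, nsmul_eq_mul]

theorem Pd_succ' {d : ℕ} (c : ℂ) (k : ℕ) : Pd d c (k + 1) = d * ‖zz d c k‖ ^ (d - 1) * Pd d c k := by
  unfold Pd zz
  rw [Pool.Agent.Y298.SH.deriv_iter_eq, Pool.Agent.Y298.SH.deriv_iter_eq, Finset.prod_range_succ,
    norm_mul, mul_comm, norm_mul, norm_pow, Complex.norm_natCast]

/-- **Parameters close to `c₀` are not superattracting of a small period.** -/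
theorem avoid {d : ℕ} (hd : 2 ≤ d) {c₀ c : ℂ} {S : ℝ} (hS : 0 ≤ S) {N : ℕ}
    (hpos : ∀ j < N, 0 < Pd d c₀ j) (hz : ∀ j < N, 0 < ‖zz d c₀ j‖)
    (hsum : ∀ j < N, ∑ i ∈ Finset.range (j + 1), 1 / Pd d c₀ i ≤ S)
    (hsm : 3 * d * S * ‖c - c₀‖ * ∑ i ∈ Finset.range N, Pd d c₀ i / ‖zz d c₀ i‖ ≤ 1) :
    ∀ j < N, zz d c j ≠ 0 := by
  have hd1 : (1 : ℝ) ≤ d := by exact_mod_cast (by omega : 1 ≤ d)
  have hd0 : (0 : ℝ) < d := by linarith
  obtain ⟨r, hr⟩ : ∃ r, r = ‖c - c₀‖ := ⟨_, rfl⟩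
  have hr0 : 0 ≤ r := by rw [hr]; exact norm_nonneg _
  rw [← hr] at hsm
  obtain ⟨W, hW⟩ : ∃ W : ℕ → ℝ, W = fun j => ∑ i ∈ Finset.range j, Pd d c₀ i / ‖zz d c₀ i‖ :=
    ⟨_, rfl⟩
  have hWm : ∀ j ≤ N, W j ≤ W N := by
    intro j hj
    rw [hW]
    apply Finset.sum_le_sum_of_subset_of_nonneg
    · exact Finset.range_subset_range.2 hj
    · intro i hi _
      rw [Finset.mem_range] at hi
      exact div_nonneg (hpos i hi).le (hz i hi).le
  have hsmW : 3 * d * S * r * W N ≤ 1 := by rw [hW]; exact hsm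
  -- the accumulated distortion
  have key : ∀ j < N, ‖zz d c j - zz d c₀ j‖ ≤ Real.exp (3 * d * S * r * W j) * r * Pd d c₀ j *
      ∑ i ∈ Finset.range (j + 1), 1 / Pd d c₀ i := by
    intro j
    induction j with
    | zero =>
      intro hj
      have h1 : Pd d c₀ 0 = 1 := by simp [Pd]
      have h2 : W 0 = 0 := by rw [hW]; simp
      rw [h1, h2]
      simp only [mul_zero, Real.exp_zero, one_mul, mul_one, zero_add, Finset.range_one,
        Finset.sum_singleton, h1, div_one, zz_zero]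
      rw [hr]
    | succ j ih =>
      intro hj
      have hj' : j < N := by omega
      have h1 := ih hj'
      have hPj := hpos j hj'
      have hzj := hz j hj'
      have hPj1 := hpos (j + 1) hj
      have hWj : 3 * d * S * r * W j ≤ 1 :=
        (mul_le_mul_of_nonneg_left (hWm j hj'.le) (by positivity)).trans hsmW
      have hexp : Real.exp (3 * d * S * r * W j) ≤ 3 := by
        have h2 := Real.exp_le_exp.2 hWj
        have h3 := Real.exp_one_lt_d9
        linarith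
      have hsj := hsum j hj'
      have hsn : 0 ≤ ∑ i ∈ Finset.range (j + 1), 1 / Pd d c₀ i := by
        apply Finset.sum_nonneg
        intro i hi
        rw [Finset.mem_range] at hi
        have := hpos i (by omega)
        positivity
      -- relative error
      obtain ⟨q, hq⟩ : ∃ q, q = 3 * S * r * (Pd d c₀ j / ‖zz d c₀ j‖) := ⟨_, rfl⟩
      have hq0 : 0 ≤ q := by rw [hq]; positivity
      have h4 : ‖zz d c j - zz d c₀ j‖ ≤ q * ‖zz d c₀ j‖ := by
        refine h1.trans ?_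
        calc Real.exp (3 * d * S * r * W j) * r * Pd d c₀ j *
              ∑ i ∈ Finset.range (j + 1), 1 / Pd d c₀ i ≤ 3 * r * Pd d c₀ j * S := by gcongr
          _ = q * ‖zz d c₀ j‖ := by
            rw [hq]
            field_simp
      have h5 : ‖zz d c j‖ ≤ (1 + q) * ‖zz d c₀ j‖ := by
        have h6 := norm_add_le (zz d c j - zz d c₀ j) (zz d c₀ j)
        rw [sub_add_cancel] at h6
        linarith
      have h6 : ‖zz d c₀ j‖ ≤ (1 + q) * ‖zz d c₀ j‖ := by nlinarith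
      have h7 := pow_diff (d := d) (by omega) h5 h6
      have h8 : (1 + q) ^ (d - 1) ≤ Real.exp (d * q) := by
        calc (1 + q) ^ (d - 1) ≤ (1 + q) ^ d :=
              pow_le_pow_right₀ (by linarith) (by omega)
          _ ≤ (Real.exp q) ^ d := by
              gcongr
              linarith [Real.add_one_le_exp q]
          _ = Real.exp (d * q) := by rw [← Real.exp_nat_mul]
      have h9 : zz d c (j + 1) - zz d c₀ (j + 1) = (zz d c j ^ d - zz d c₀ j ^ d) + (c - c₀) := by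
        rw [zz_succ, zz_succ]
        ring
      rw [h9]
      refine (norm_add_le _ _).trans ?_
      have h10 : Real.exp (3 * d * S * r * W (j + 1)) =
          Real.exp (d * q) * Real.exp (3 * d * S * r * W j) := by
        rw [← Real.exp_add]
        congr 1
        have h11 : W (j + 1) = W j + Pd d c₀ j / ‖zz d c₀ j‖ := by
          rw [hW]
          exact Finset.sum_range_succ _ _
        rw [h11, hq]
        ring
      have h12 : ‖zz d c j ^ d - zz d c₀ j ^ d‖ ≤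
          Real.exp (3 * d * S * r * W (j + 1)) * r * Pd d c₀ (j + 1) *
            ∑ i ∈ Finset.range (j + 1), 1 / Pd d c₀ i := by
        refine h7.trans ?_
        rw [mul_pow, Pd_succ', h10]
        calc (d : ℝ) * ((1 + q) ^ (d - 1) * ‖zz d c₀ j‖ ^ (d - 1)) * ‖zz d c j - zz d c₀ j‖
            ≤ d * (Real.exp (d * q) * ‖zz d c₀ j‖ ^ (d - 1)) *
              (Real.exp (3 * d * S * r * W j) * r * Pd d c₀ j *
                ∑ i ∈ Finset.range (j + 1), 1 / Pd d c₀ i) := by gcongr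
          _ = _ := by ring
      have h13 : ‖c - c₀‖ ≤ Real.exp (3 * d * S * r * W (j + 1)) * r * Pd d c₀ (j + 1) *
          (1 / Pd d c₀ (j + 1)) := by
        have hW0 : 0 ≤ W (j + 1) := by
          rw [hW]
          apply Finset.sum_nonneg
          intro i hi
          rw [Finset.mem_range] at hi
          exact div_nonneg (hpos i (by omega)).le (hz i (by omega)).le
        have h14 : 1 ≤ Real.exp (3 * d * S * r * W (j + 1)) := by
          rw [← Real.exp_zero]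
          exact Real.exp_le_exp.2 (by positivity)
        rw [← hr]
        calc r = 1 * r := (one_mul r).symm
          _ ≤ Real.exp (3 * d * S * r * W (j + 1)) * r := by gcongr
          _ = _ := by field_simp
      rw [Finset.sum_range_succ, mul_add]
      exact add_le_add h12 h13
  intro j hj h0
  have h1 := key j hj
  have hPj := hpos j hj
  have hzj := hz j hj
  have hWj : 3 * d * S * r * W j ≤ 1 :=
    (mul_le_mul_of_nonneg_left (hWm j hj.le) (by positivity)).trans hsmW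
  have hexp : Real.exp (3 * d * S * r * W j) < 2.8 := by
    have h2 := Real.exp_le_exp.2 hWj
    have h3 := Real.exp_one_lt_d9
    linarith
  have hsj := hsum j hj
  have hsn : 0 ≤ ∑ i ∈ Finset.range (j + 1), 1 / Pd d c₀ i := by
    apply Finset.sum_nonneg
    intro i hi
    rw [Finset.mem_range] at hi
    have := hpos i (by omega)
    positivity
  rw [h0, zero_sub, norm_neg] at h1
  have h2 : ‖zz d c₀ j‖ ≤ 2.8 * r * Pd d c₀ j * S := by
    refine h1.trans ?_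
    gcongr
  -- but the error is at most `|z_j| / d`
  have h3 : 3 * d * S * r * (Pd d c₀ j / ‖zz d c₀ j‖) ≤ 1 := by
    have h4 : Pd d c₀ j / ‖zz d c₀ j‖ ≤ W N := by
      rw [hW]
      exact Finset.single_le_sum (f := fun i => Pd d c₀ i / ‖zz d c₀ i‖)
        (fun i hi => div_nonneg (hpos i (Finset.mem_range.1 hi)).le
          (hz i (Finset.mem_range.1 hi)).le) (Finset.mem_range.2 hj)
    exact (mul_le_mul_of_nonneg_left h4 (by positivity)).trans hsmW
  rw [← mul_div_assoc, div_le_one hzj] at h3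
  have hd2 : (2 : ℝ) ≤ d := by exact_mod_cast hd
  have h5 : 0 ≤ r * Pd d c₀ j * S := by positivity
  nlinarith

theorem Pd_le_succ {d : ℕ} {C₁ lam : ℝ} {c₀ : ℂ} (h : CEp d C₁ lam c₀) (k : ℕ) :
    Pd d c₀ (k + 1) ≤ d * 2 ^ (d - 1) * Pd d c₀ k := by
  rw [Pd_succ']
  have h1 := h.bd k
  have h2 := Pd_nonneg d c₀ k
  gcongr

/-- **Growth of the parameter derivatives, uniformly.** -/
theorem grow_unif {d : ℕ} (hd : 2 ≤ d) (C₁ lam : ℝ) : ∃ κ : ℝ, ∃ J : ℕ, 0 < κ ∧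
    ∀ c₀ : ℂ, CEp d C₁ lam c₀ → ∀ k : ℕ, J ≤ k → κ * Pd d c₀ k ≤ ‖deriv (P d (k + 1)) c₀‖ := by
  have hloc : ∀ c₀ : ℂ, ∃ κ ε : ℝ, ∃ J : ℕ, 0 < κ ∧ 0 < ε ∧ (CEp d C₁ lam c₀ → ∀ c₁ : ℂ,
      CEp d C₁ lam c₁ → ‖c₁ - c₀‖ ≤ ε → ∀ k : ℕ, J ≤ k →
        κ * Pd d c₁ k ≤ ‖deriv (P d (k + 1)) c₁‖) := by
    intro c₀
    by_cases h : CEp d C₁ lam c₀
    · obtain ⟨κ, ε, J, hκ, hε, H⟩ := h.grow
      refine ⟨κ, ε, J, hκ, hε, fun _ c₁ h₁ hc k hk => H c₁ h₁ c₁ hc k hk fun j _ => ?_⟩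
      have h5 : Pd d c₁ j = ‖deriv ((Pool.Agent.TH279.MD.f d c₁)^[j]) c₁‖ := rfl
      rw [h5]
      linarith [norm_nonneg (deriv ((Pool.Agent.TH279.MD.f d c₁)^[j]) c₁)]
    · exact ⟨1, 1, 0, one_pos, one_pos, fun h' => absurd h' h⟩
  choose κκ εε JJ hκκ hεε H using hloc
  obtain ⟨t, htS, ht⟩ := (isCompact_CEp d C₁ lam).elim_nhds_subcover
    (fun c₀ => ball c₀ (εε c₀)) (fun c₀ _ => ball_mem_nhds c₀ (hεε c₀))
  by_cases hne : t.Nonempty
  · refine ⟨t.inf' hne κκ, t.sup JJ, (Finset.lt_inf'_iff hne).mpr fun c₀ _ => hκκ c₀, ?_⟩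
    intro c₁ h₁ k hk
    have h2 := ht h₁
    rw [mem_iUnion₂] at h2
    obtain ⟨c₀, hc₀t, hc₀⟩ := h2
    rw [mem_ball, dist_eq_norm] at hc₀
    have h3 := H c₀ (htS c₀ hc₀t) c₁ h₁ hc₀.le k ((Finset.le_sup hc₀t).trans hk)
    refine le_trans ?_ h3
    exact mul_le_mul_of_nonneg_right (Finset.inf'_le _ hc₀t) (Pd_nonneg d c₁ k)
  · rw [Finset.not_nonempty_iff_eq_empty] at hne
    refine ⟨1, 0, one_pos, ?_⟩
    intro c₁ h₁
    have h2 := ht h₁
    rw [hne] at h2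
    simp at h2

/-- **The upper bound, uniformly over the Collet-Eckmann parameters with given constants.** -/
theorem dist_upper {d : ℕ} (hd : 2 ≤ d) (C₁ lam : ℝ) : ∃ A : ℝ, 0 < A ∧
    ∀ c₀ : ℂ, CEp d C₁ lam c₀ → ∀ N : ℕ, 1 ≤ N → ∀ k ≤ N,
      infDist c₀ {c | Cn d N c} * Pd d c₀ k ≤ A := by
  obtain ⟨κ, J, hκ, H⟩ := grow_unif hd C₁ lam
  have hd1 : (1 : ℝ) ≤ d := by exact_mod_cast (by omega : 1 ≤ d)
  obtain ⟨E, hE⟩ : ∃ E : ℝ, E = d * 2 ^ (d - 1) := ⟨_, rfl⟩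
  have hE1 : 1 ≤ E := by
    rw [hE]
    have : (1 : ℝ) ≤ 2 ^ (d - 1) := one_le_pow₀ (by norm_num)
    nlinarith
  have hS : 1 ≤ SB (1 / 2) := SB_ge
  refine ⟨2 * E ^ (J + 1) + E ^ 2 * (8 * SB (1 / 2)) / κ, by positivity, ?_⟩
  intro c₀ h₀ N hN k hk
  have hM : c₀ ∈ multibrotSet d := by
    rw [mem_multibrot_iff hd]
    intro j
    rcases j with _ | j
    · rw [P_zero]; simp
    · rw [P_succ_eq hd]
      exact h₀.bd j
  have hEk : ∀ a b : ℕ, Pd d c₀ (a + b) ≤ E ^ b * Pd d c₀ a := by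
    intro a b
    induction b with
    | zero => simp
    | succ b ih =>
      have h1 := Pd_le_succ h₀ (a + b)
      rw [← hE] at h1
      rw [← add_assoc, pow_succ]
      calc Pd d c₀ (a + b + 1) ≤ E * Pd d c₀ (a + b) := h1
        _ ≤ E * (E ^ b * Pd d c₀ a) := by gcongr
        _ = _ := by ring
  have hPk := Pd_nonneg d c₀ k
  have hinf0 : 0 ≤ infDist c₀ {c | Cn d N c} := infDist_nonneg
  rcases Nat.lt_or_ge k (J + 2) with hkJ | hkJ
  · have h1 : infDist c₀ {c | Cn d N c} ≤ 2 := by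
      have h2 := infDist_le_dist_of_mem (x := c₀) (show (0 : ℂ) ∈ {c | Cn d N c} from
        cn_zero hd hN)
      rw [dist_zero_right] at h2
      exact h2.trans (h₀.bd 0)
    have h2 : Pd d c₀ k ≤ E ^ (J + 1) := by
      have h3 := hEk 0 k
      have h4 : Pd d c₀ 0 = 1 := by simp [Pd]
      rw [zero_add, h4, mul_one] at h3
      exact h3.trans (pow_le_pow_right₀ hE1 (by omega))
    calc infDist c₀ {c | Cn d N c} * Pd d c₀ k ≤ 2 * E ^ (J + 1) := by gcongr
      _ ≤ _ := by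
        have : 0 ≤ E ^ 2 * (8 * SB (1 / 2)) / κ := by positivity
        linarith
  · obtain ⟨m, rfl⟩ := Nat.exists_eq_add_of_le' (show 2 ≤ k by omega)
    obtain ⟨M, rfl⟩ := Nat.exists_eq_add_of_le' hN
    obtain ⟨c', hc', hk'⟩ := cauchyB hd hM M
    have h1 := hk' (m + 1) (by omega)
    have h2 := H c₀ h₀ m (by omega)
    have h3 : infDist c₀ {c | Cn d (M + 1) c} ≤ ‖c' - c₀‖ := by
      have := infDist_le_dist_of_mem (x := c₀) (show c' ∈ {c | Cn d (M + 1) c} from hc')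
      rwa [dist_comm, dist_eq_norm] at this
    have h4 := hEk m 2
    have hPm := Pd_nonneg d c₀ m
    have h5 : infDist c₀ {c | Cn d (M + 1) c} * (κ * Pd d c₀ m) ≤ 8 * SB (1 / 2) :=
      (mul_le_mul h3 h2 (by positivity) (norm_nonneg _)).trans h1
    have h6 : infDist c₀ {c | Cn d (M + 1) c} * Pd d c₀ m ≤ 8 * SB (1 / 2) / κ := by
      rw [le_div_iff₀ hκ]
      linarith
    calc infDist c₀ {c | Cn d (M + 1) c} * Pd d c₀ (m + 2)
        ≤ infDist c₀ {c | Cn d (M + 1) c} * (E ^ 2 * Pd d c₀ m) := by gcongr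
      _ = E ^ 2 * (infDist c₀ {c | Cn d (M + 1) c} * Pd d c₀ m) := by ring
      _ ≤ E ^ 2 * (8 * SB (1 / 2) / κ) := by gcongr
      _ = E ^ 2 * (8 * SB (1 / 2)) / κ := by ring
      _ ≤ _ := by
        have : 0 ≤ 2 * E ^ (J + 1) := by positivity
        linarith

/-- **The lower bound, uniformly over the Collet-Eckmann parameters with given constants.** -/
theorem dist_lower {d : ℕ} (hd : 2 ≤ d) (C₁ lam : ℝ) : ∃ A : ℝ, 0 < A ∧
    ∀ c₀ : ℂ, CEp d C₁ lam c₀ → ∀ N : ℕ, 1 ≤ N →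
      1 ≤ A * infDist c₀ {c | Cn d N c} * ∑ i ∈ Finset.range N, Pd d c₀ i / ‖zz d c₀ i‖ := by
  by_cases hne : ∃ c₀, CEp d C₁ lam c₀
  swap
  · exact ⟨1, one_pos, fun c₀ h => absurd ⟨c₀, h⟩ hne⟩
  obtain ⟨c₁, h₁⟩ := hne
  have hC1 := h₁.C1
  have hl := h₁.lam1
  have hd1 : (1 : ℝ) ≤ d := by exact_mod_cast (by omega : 1 ≤ d)
  obtain ⟨S, hS⟩ : ∃ S : ℝ, S = C₁ * (1 - lam⁻¹)⁻¹ := ⟨_, rfl⟩
  have hl0 : 0 < lam := by linarith
  have hl1 : lam⁻¹ < 1 := inv_lt_one_of_one_lt₀ hl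
  have hli : 0 ≤ lam⁻¹ := by positivity
  have hS0 : 0 < S := by
    rw [hS]
    have : 0 < 1 - lam⁻¹ := by linarith
    positivity
  refine ⟨3 * d * S, by positivity, ?_⟩
  intro c₀ h₀ N hN
  have hpos : ∀ j, 0 < Pd d c₀ j := h₀.Pd_pos
  have hz : ∀ j, 0 < ‖zz d c₀ j‖ := fun j => norm_pos_iff.2 (h₀.zz_ne j)
  have hsum : ∀ j, ∑ i ∈ Finset.range (j + 1), 1 / Pd d c₀ i ≤ S := by
    intro j
    have h1 : ∀ i ∈ Finset.range (j + 1), 1 / Pd d c₀ i ≤ C₁ * lam⁻¹ ^ i := by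
      intro i _
      rw [div_le_iff₀ (hpos i)]
      have h2 := h₀.exp i
      have h3 : lam⁻¹ ^ i * lam ^ i = 1 := by
        rw [← mul_pow, inv_mul_cancel₀ hl0.ne', one_pow]
      calc (1 : ℝ) = lam⁻¹ ^ i * lam ^ i := h3.symm
        _ ≤ lam⁻¹ ^ i * (C₁ * Pd d c₀ i) := by gcongr
        _ = _ := by ring
    refine (Finset.sum_le_sum h1).trans ?_
    rw [← Finset.mul_sum, hS]
    apply mul_le_mul_of_nonneg_left _ (by linarith)
    rw [← tsum_geometric_of_lt_one hli hl1]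
    exact (summable_geometric_of_lt_one hli hl1).sum_le_tsum _ fun i _ => by positivity
  obtain ⟨W, hW⟩ : ∃ W, W = ∑ i ∈ Finset.range N, Pd d c₀ i / ‖zz d c₀ i‖ := ⟨_, rfl⟩
  have hW0 : 0 < W := by
    rw [hW]
    apply Finset.sum_pos
    · intro i _
      exact div_pos (hpos i) (hz i)
    · exact ⟨0, Finset.mem_range.2 (by omega)⟩
  rw [← hW]
  have h1 : 1 / (3 * d * S * W) ≤ infDist c₀ {c | Cn d N c} := by
    rw [le_infDist ⟨0, cn_zero hd hN⟩]
    rintro c ⟨p, hp1, hp2, hp3⟩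
    rw [dist_comm, dist_eq_norm]
    by_contra hcon
    rw [not_le, lt_div_iff₀ (by positivity)] at hcon
    obtain ⟨q, rfl⟩ := Nat.exists_eq_add_of_le' hp1
    have h2 := avoid hd hS0.le (N := N) (c := c) (c₀ := c₀) (fun j _ => hpos j) (fun j _ => hz j)
      (fun j _ => hsum j) (by rw [← hW]; linarith) q (by omega)
    apply h2
    rw [← hp3, P_succ_eq hd]
    rfl
  rw [div_le_iff₀ (by positivity)] at h1
  linarith

end Pool.Agent.Q186.Cen
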