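import Pool.Agent.Q186.Cen.Poly

/-!
# The distance to the superattracting parameters: polynomial recurrence, expanding critical orbits,
typical parameters
-/

set_option autoImplicit false

open Complex Metric Set Filter Topology N62a1eb23

namespace Pool.Agent.Q186.Cen

open Pool.Agent.H712R2 (P P_zero P_one P_succ mem_multibrot_iff)
open Pool.Agent.H713R2
open Pool.Agent.Y298.CA Pool.Agent.Y298.SH.CD

/-- The lower bound when the critical orbit recurs slowly. -/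
theorem lower_poly {d N : ℕ} {A C₂ x : ℝ} {B : ℕ} {D z : ℕ → ℝ} (hA : 0 < A) (hx : 0 ≤ x)
    (hN : 1 ≤ N) (hD : ∀ i, 0 < D i) (hz : ∀ i, 0 < z i)
    (h : 1 ≤ A * x * ∑ i ∈ Finset.range N, D i / z i)
    (hr : ∀ i < N, 1 ≤ C₂ * ((i : ℝ) + 1) ^ B * z i) :
    ∃ k < N, 1 ≤ A * C₂ * (N : ℝ) ^ (B + 1) * x * D k := by
  obtain ⟨k, hk, hmax⟩ := Finset.exists_max_image (Finset.range N) D ⟨0, Finset.mem_range.2 hN⟩
  rw [Finset.mem_range] at hk
  have hC₂ : 0 < C₂ := by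
    have h1 := hr 0 hN
    simp only [Nat.cast_zero, zero_add, one_pow, mul_one] at h1
    by_contra hcon
    rw [not_lt] at hcon
    have := hz 0
    nlinarith
  refine ⟨k, hk, h.trans ?_⟩
  have h1 : ∀ i ∈ Finset.range N, D i / z i ≤ D k * (C₂ * (N : ℝ) ^ B) := by
    intro i hi
    have hi' := Finset.mem_range.1 hi
    rw [div_le_iff₀ (hz i)]
    have h2 := hr i hi'
    have h3 : ((i : ℝ) + 1) ^ B ≤ (N : ℝ) ^ B := by
      have : (i : ℝ) + 1 ≤ N := by exact_mod_cast hi'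
      gcongr
    have hzi := hz i
    have hDk := hD k
    have hNB : 0 ≤ (N : ℝ) ^ B := by positivity
    calc D i ≤ D k * 1 := by rw [mul_one]; exact hmax i hi
      _ ≤ D k * (C₂ * ((i : ℝ) + 1) ^ B * z i) := by gcongr
      _ ≤ D k * (C₂ * (N : ℝ) ^ B * z i) := by gcongr
      _ = _ := by ring
  have h2 := Finset.sum_le_sum h1
  rw [Finset.sum_const, Finset.card_range, nsmul_eq_mul] at h2
  calc A * x * ∑ i ∈ Finset.range N, D i / z i
      ≤ A * x * (N * (D k * (C₂ * (N : ℝ) ^ B))) := by gcongr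
    _ = _ := by ring

/-- The sums along an expanding critical orbit. -/
theorem sum_expanding {d M : ℕ} {c₀ : ℂ} (h : Pool.Agent.Y298.SH.SHyp d M c₀) :
    (∃ C₁ lam : ℝ, CEp d C₁ lam c₀) ∧ ∃ K : ℝ, 0 < K ∧ ∀ N : ℕ,
      ∑ i ∈ Finset.range N, Pd d c₀ i / ‖zz d c₀ i‖ ≤ K * Pd d c₀ N := by
  obtain ⟨κ, hκ0, hκ1, hκ⟩ := h.deriv_iter_lb
  obtain ⟨lam, hl0, hl1, hl⟩ := Pool.Agent.Y298.SH.pow_div_le M h.hM
  have horb : ∀ j, zz d c₀ j ∈ Pool.Agent.Y298.SH.PP d c₀ := fun j =>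
    Pool.Agent.Y298.SH.orb_mem_PP j
  have hlow : ∀ (j n : ℕ), κ / 2 * (lam ^ n)⁻¹ ≤
      ‖deriv ((Pool.Agent.TH279.MD.f d c₀)^[n]) (zz d c₀ j)‖ := by
    intro j n
    refine le_trans ?_ (hκ _ (horb j) n)
    have h1 := hl n
    have h2 : (lam ^ n)⁻¹ ≤ 2 * 2 ^ (n / M) := by
      rw [inv_le_comm₀ (by positivity) (by positivity)]
      rw [mul_inv]
      rw [inv_mul_le_iff₀ (by norm_num)]
      exact h1
    nlinarith [mul_le_mul_of_nonneg_left h2 (by positivity : (0 : ℝ) ≤ κ / 2)]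
  refine ⟨⟨2 / κ, lam⁻¹, h.hd, h.bd, ?_, ?_, ?_⟩, ?_⟩
  · rw [le_div_iff₀ hκ0]
    linarith
  · exact one_lt_inv_iff₀.2 ⟨hl0, hl1⟩
  · intro n
    have h1 := hlow 0 n
    have h2 : Pd d c₀ n = ‖deriv ((Pool.Agent.TH279.MD.f d c₀)^[n]) (zz d c₀ 0)‖ := rfl
    rw [h2, inv_pow, div_mul_eq_mul_div, le_div_iff₀ hκ0]
    linarith
  · -- the orbit stays away from zero
    obtain ⟨δ, hδ, hδz⟩ : ∃ δ : ℝ, 0 < δ ∧ ∀ j, δ ≤ ‖zz d c₀ j‖ := by
      have h1 : (Pool.Agent.Y298.SH.PP d c₀)ᶜ ∈ 𝓝 (0 : ℂ) :=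
        Pool.Agent.Y298.SH.isClosed_PP.isOpen_compl.mem_nhds h.zero_notin
      obtain ⟨δ, hδ, hb⟩ := Metric.mem_nhds_iff.1 h1
      refine ⟨δ, hδ, fun j => ?_⟩
      by_contra hcon
      rw [not_le] at hcon
      exact hb (mem_ball_zero_iff.2 hcon) (horb j)
    have hlm : 0 < 1 - lam := by linarith
    refine ⟨2 / (κ * δ) * (1 - lam)⁻¹, by positivity, ?_⟩
    intro N
    have hPN := Pd_nonneg d c₀ N
    have h1 : ∀ i ∈ Finset.range N, Pd d c₀ i / ‖zz d c₀ i‖ ≤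
        2 / (κ * δ) * Pd d c₀ N * lam ^ (N - 1 - i) := by
      intro i hi
      have hi' := Finset.mem_range.1 hi
      have hPi := Pd_nonneg d c₀ i
      have h2 : Pd d c₀ N = ‖deriv ((Pool.Agent.TH279.MD.f d c₀)^[N - i]) (zz d c₀ i)‖ *
          Pd d c₀ i := by
        unfold Pd zz
        rw [← norm_mul, ← Pool.Agent.Y298.SH.deriv_iter_add, Nat.sub_add_cancel hi'.le]
      have h3 := hlow i (N - i)
      have h4 : κ / 2 * (lam ^ (N - i))⁻¹ * Pd d c₀ i ≤ Pd d c₀ N := by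
        rw [h2]
        exact mul_le_mul_of_nonneg_right h3 hPi
      have h5 : lam ^ (N - i) ≤ lam ^ (N - 1 - i) :=
        pow_le_pow_of_le_one hl0.le hl1.le (by omega)
      have h6 : Pd d c₀ i ≤ 2 / κ * lam ^ (N - i) * Pd d c₀ N := by
        have h7 : 0 < lam ^ (N - i) := by positivity
        calc Pd d c₀ i = 2 / κ * lam ^ (N - i) * (κ / 2 * (lam ^ (N - i))⁻¹ * Pd d c₀ i) := by
              field_simp
          _ ≤ _ := by gcongr
      have h8 := hδz i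
      have h9 : 0 < ‖zz d c₀ i‖ := lt_of_lt_of_le hδ h8
      calc Pd d c₀ i / ‖zz d c₀ i‖ ≤ Pd d c₀ i / δ := by gcongr
        _ ≤ 2 / κ * lam ^ (N - 1 - i) * Pd d c₀ N / δ := by
          gcongr
          exact h6.trans (by gcongr)
        _ = _ := by field_simp
    refine (Finset.sum_le_sum h1).trans ?_
    rw [← Finset.mul_sum, Finset.sum_range_reflect (fun i => lam ^ i) N]
    have h2 : ∑ i ∈ Finset.range N, lam ^ i ≤ (1 - lam)⁻¹ := by
      rw [← tsum_geometric_of_lt_one hl0.le hl1]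
      exact (summable_geometric_of_lt_one hl0.le hl1).sum_le_tsum _ fun i _ => by positivity
    calc 2 / (κ * δ) * Pd d c₀ N * ∑ i ∈ Finset.range N, lam ^ i
        ≤ 2 / (κ * δ) * Pd d c₀ N * (1 - lam)⁻¹ := by gcongr
      _ = _ := by ring

open Pool.Agent.Y272.TY in
/-- **Typical parameters.** -/
theorem typ_dist {d : ℕ} (hd : 2 ≤ d) {β : ℂ → ℂ} (hβ : IsBeta d β) {θ : ℝ} {c₀ : ℂ} {A : ℝ}
    {R : ℂ} (h : Typ d β θ c₀ A R) : ∃ A' : ℝ, 0 < A' ∧ ∃ B : ℕ, ∀ N : ℕ, 1 ≤ N →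
      (∀ k ≤ N, infDist c₀ {c | Cn d N c} * Pd d c₀ k ≤ A') ∧
      (∃ k < N, 1 ≤ A' * (N : ℝ) ^ B * infDist c₀ {c | Cn d N c} * Pd d c₀ k) ∧
      |Real.log (infDist c₀ {c | Cn d N c}) + N * Real.log d| ≤
        A' * √(N * Real.log (Real.log (N + 16))) := by
  have hL := lyap_of_typ hd hβ h
  obtain ⟨⟨C₁, lam, hc⟩, -⟩ := Pool.Agent.Y674.CA.lya d (Real.log d) c₀ hd hL
  obtain ⟨A₁, hA₁, H₁⟩ := dist_upper hd C₁ lam
  obtain ⟨A₂, hA₂, H₂⟩ := dist_lower hd C₁ lam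
  obtain ⟨A₃, hA₃, hs⟩ := h.sumg hd
  have hA₃0 : 0 ≤ A₃ := h.A0.trans hA₃
  have hpos : ∀ j, 0 < Pd d c₀ j := hc.Pd_pos
  have hz : ∀ j, 0 < ‖zz d c₀ j‖ := fun j => norm_pos_iff.2 (hc.zz_ne j)
  have hdR : (2 : ℝ) ≤ d := by exact_mod_cast hd
  have hlogd : 0 < Real.log d := Real.log_pos (by linarith)
  -- recurrence
  obtain ⟨B, hB⟩ : ∃ B : ℕ, B = ⌈A⌉₊ := ⟨_, rfl⟩
  have hrec : ∀ i : ℕ, 1 ≤ (2 : ℝ) ^ B * ((i : ℝ) + 1) ^ B * ‖zz d c₀ i‖ := by
    intro i
    have h1 := h.rec' i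
    have e2 : P d (i + 1) c₀ = zz d c₀ i := by
      rw [P_succ_eq hd]
      rfl
    rw [e2] at h1
    have hi0 : (0 : ℝ) ≤ i := Nat.cast_nonneg i
    have h2 : A * Real.log ((i : ℝ) + 2) ≤ B * Real.log ((i : ℝ) + 2) := by
      apply mul_le_mul_of_nonneg_right
      · rw [hB]; exact Nat.le_ceil A
      · exact Real.log_nonneg (by linarith)
    have h3 : Real.exp (A * Real.log ((i : ℝ) + 2)) ≤ (2 : ℝ) ^ B * ((i : ℝ) + 1) ^ B := by
      calc Real.exp (A * Real.log ((i : ℝ) + 2)) ≤ Real.exp (B * Real.log ((i : ℝ) + 2)) :=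
            Real.exp_le_exp.2 h2
        _ = ((i : ℝ) + 2) ^ B := by
            rw [Real.exp_nat_mul, Real.exp_log (by linarith)]
        _ ≤ (2 * ((i : ℝ) + 1)) ^ B := by
            gcongr
            linarith
        _ = _ := mul_pow _ _ _
    calc (1 : ℝ) = Real.exp (A * Real.log ((i : ℝ) + 2)) *
          Real.exp (-(A * Real.log ((i : ℝ) + 2))) := by
            rw [← Real.exp_add, add_neg_cancel, Real.exp_zero]
      _ ≤ _ := mul_le_mul h3 h1 (Real.exp_pos _).le (by positivity)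
  have hlow : ∀ N : ℕ, 1 ≤ N →
      ∃ k < N, 1 ≤ A₂ * 2 ^ B * (N : ℝ) ^ (B + 1) * infDist c₀ {c | Cn d N c} * Pd d c₀ k :=
    fun N hN => lower_poly (d := d) hA₂ infDist_nonneg hN hpos hz (H₂ c₀ hc N hN)
      fun i _ => hrec i
  -- growth
  have hgrow : ∀ n : ℕ, |Real.log (Pd d c₀ n) - n * Real.log d| ≤ ((d : ℝ) - 1) * A₃ * gg n := by
    intro n
    have h1 : Real.log (Pd d c₀ n) = n * Real.log d +
        ((d : ℝ) - 1) * ∑ j ∈ Finset.range n, Real.log ‖P d (j + 1) c₀‖ := by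
      rw [← log_MM hd c₀ n fun j _ => h.P_ne j, ← (deriv_iter hd c₀ n).deriv]
      rfl
    have hd0 : (0 : ℝ) ≤ d - 1 := by linarith
    rw [h1, add_sub_cancel_left, abs_mul, abs_of_nonneg hd0, mul_assoc]
    exact mul_le_mul_of_nonneg_left (hs n) hd0
  obtain ⟨G, hG⟩ : ∃ G : ℝ, G = 2 * (|Real.log A₁| + |Real.log (A₂ * 2 ^ B)|) + (B + 1) +
      ((d : ℝ) - 1) * A₃ := ⟨_, rfl⟩
  have hG0 : 0 ≤ G := by
    rw [hG]
    have : (0 : ℝ) ≤ d - 1 := by linarith
    positivity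
  have hlil : ∀ N : ℕ, 1 ≤ N → |Real.log (infDist c₀ {c | Cn d N c}) + N * Real.log d| ≤
      G * gg N := by
    intro N hN
    have hN1 : (1 : ℝ) ≤ N := by exact_mod_cast hN
    have hgg : 0.69 ≤ gg N := (log_two_le N).trans (log_le_gg N)
    obtain ⟨k, hk, hk2⟩ := hlow N hN
    have hinf : 0 < infDist c₀ {c | Cn d N c} := by
      rcases (infDist_nonneg (x := c₀) (s := {c | Cn d N c})).eq_or_lt with h0 | h0
      · rw [← h0, mul_zero, zero_mul] at hk2
        linarith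
      · exact h0
    have hlogN : 0 ≤ Real.log N := Real.log_nonneg hN1
    have hlogN2 : Real.log N ≤ gg N := by
      refine le_trans ?_ (log_le_gg N)
      exact Real.log_le_log (by linarith) (by linarith)
    have hd0 : (0 : ℝ) ≤ d - 1 := by linarith
    rw [abs_le]
    constructor
    · have h1 := Real.log_le_log one_pos hk2
      have hq : 0 < A₂ * 2 ^ B := by positivity
      have hNp : 0 < (N : ℝ) ^ (B + 1) := by positivity
      rw [Real.log_one, Real.log_mul (by positivity) (hpos k).ne',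
        Real.log_mul (by positivity) hinf.ne', Real.log_mul hq.ne' hNp.ne', Real.log_pow] at h1
      have h2 := (abs_le.1 (hgrow k)).2
      have h3 : gg k ≤ gg N := gg_mono hk.le
      have h4 : (k : ℝ) * Real.log d ≤ N * Real.log d := by
        apply mul_le_mul_of_nonneg_right _ hlogd.le
        exact_mod_cast hk.le
      have h5 : ((d : ℝ) - 1) * A₃ * gg k ≤ ((d : ℝ) - 1) * A₃ * gg N := by gcongr
      have h6 := le_abs_self (Real.log (A₂ * 2 ^ B))
      have h7 : 0 ≤ |Real.log A₁| := abs_nonneg _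
      have h8 : |Real.log (A₂ * 2 ^ B)| ≤ 2 * |Real.log (A₂ * 2 ^ B)| * gg N := by
        nlinarith [abs_nonneg (Real.log (A₂ * 2 ^ B))]
      have h9 : ((B + 1 : ℕ) : ℝ) * Real.log N ≤ (B + 1) * gg N := by
        push_cast
        gcongr
      rw [hG]
      nlinarith [mul_nonneg h7 (by linarith : 0 ≤ gg N)]
    · have h1 := H₁ c₀ hc N hN N le_rfl
      have h2 := Real.log_le_log (mul_pos hinf (hpos N)) h1
      rw [Real.log_mul hinf.ne' (hpos N).ne'] at h2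
      have h3 := (abs_le.1 (hgrow N)).1
      have h6 := le_abs_self (Real.log A₁)
      have h7 : 0 ≤ |Real.log (A₂ * 2 ^ B)| := abs_nonneg _
      have h8 : |Real.log A₁| ≤ 2 * |Real.log A₁| * gg N := by
        nlinarith [abs_nonneg (Real.log A₁)]
      have h10 : 0 ≤ ((B : ℝ) + 1) * gg N := by positivity
      rw [hG]
      nlinarith [mul_nonneg h7 (by linarith : 0 ≤ gg N)]
  refine ⟨A₁ + A₂ * 2 ^ B + 3 * G, by positivity, B + 1, ?_⟩
  intro N hN
  have hN1 : (1 : ℝ) ≤ N := by exact_mod_cast hN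
  refine ⟨fun k hk => ?_, ?_, ?_⟩
  · refine (H₁ c₀ hc N hN k hk).trans ?_
    have : 0 ≤ A₂ * 2 ^ B + 3 * G := by positivity
    linarith
  · obtain ⟨k, hk, hk2⟩ := hlow N hN
    refine ⟨k, hk, hk2.trans ?_⟩
    have h1 : A₂ * 2 ^ B ≤ A₁ + A₂ * 2 ^ B + 3 * G := by linarith
    have h2 := hpos k
    have h3 : 0 ≤ infDist c₀ {c | Cn d N c} := infDist_nonneg
    gcongr
  · refine (hlil N hN).trans ?_
    have hll := loglog16 N
    have h1 : gg N ≤ 3 * √(N * Real.log (Real.log (N + 16))) := by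
      unfold gg
      have h2 : ((N : ℝ) + 1) * Real.log (Real.log (N + 16)) ≤
          2 * (N * Real.log (Real.log (N + 16))) := by nlinarith
      have h3 : √(((N : ℝ) + 1) * Real.log (Real.log (N + 16))) ≤
          √2 * √(N * Real.log (Real.log (N + 16))) := by
        rw [← Real.sqrt_mul (by norm_num)]
        exact Real.sqrt_le_sqrt h2
      have h4 : √2 ≤ 1.5 := by
        rw [Real.sqrt_le_left (by norm_num)]
        norm_num
      have h5 := Real.sqrt_nonneg (N * Real.log (Real.log (N + 16)))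
      nlinarith
    have h2 := Real.sqrt_nonneg (N * Real.log (Real.log (N + 16)))
    calc G * gg N ≤ G * (3 * √(N * Real.log (Real.log (N + 16)))) := by gcongr
      _ = 3 * G * √(N * Real.log (Real.log (N + 16))) := by ring
      _ ≤ _ := by
        have : 0 ≤ (A₁ + A₂ * 2 ^ B) * √(N * Real.log (Real.log (N + 16))) := by positivity
        linarith

end Pool.Agent.Q186.Cen
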