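import Pool.Agent.Q186.Cen.Disc
import Pool.Agent.Y736.HG1

/-!
# Superattracting parameters of bounded period: the uniform estimate
-/

set_option autoImplicit false

open Complex Metric Set Filter Topology N62a1eb23

namespace Pool.Agent.Q186.Cen

open Pool.Agent.H712R2 Pool.Agent.H713R2

/-- `c` is a superattracting parameter of period at most `N`. -/
def Cn (d N : ℕ) (c : ℂ) : Prop := ∃ p : ℕ, 1 ≤ p ∧ p ≤ N ∧ P d p c = 0

theorem Cn.mono {d N N' : ℕ} (h : N ≤ N') {c : ℂ} (hc : Cn d N c) : Cn d N' c := by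
  obtain ⟨p, h1, h2, h3⟩ := hc
  exact ⟨p, h1, h2.trans h, h3⟩

theorem cn_zero {d : ℕ} (hd : 2 ≤ d) {N : ℕ} (hN : 1 ≤ N) : Cn d N 0 :=
  ⟨1, le_rfl, hN, P_one hd 0⟩

/-- Green's function of the Multibrot set. -/
noncomputable def green (d : ℕ) (c : ℂ) : ℝ :=
  limsup (fun n : ℕ => Real.posLog ‖(fun z : ℂ => z ^ d + c)^[n] c‖ / (d : ℝ) ^ n) atTop

theorem iter_P {d : ℕ} (hd : 2 ≤ d) (j : ℕ) (c : ℂ) :
    (fun z : ℂ => z ^ d + c)^[j] c = P d (j + 1) c := iter_c hd j c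

theorem green_le {d : ℕ} (hd : 2 ≤ d) {c : ℂ} {R : ℝ} (hR : 2 ≤ R) {n : ℕ}
    (h1 : ‖c‖ ≤ R) (h2 : ‖P d (n + 1) c‖ ≤ R) :
    green d c ≤ Real.log (R + 1) / (d : ℝ) ^ n := by
  have hd0 : (0 : ℝ) < d := by exact_mod_cast (by omega : 0 < d)
  unfold green
  have hev : ∀ᶠ k : ℕ in atTop, Real.posLog ‖(fun z : ℂ => z ^ d + c)^[k] c‖ / (d : ℝ) ^ k ≤
      Real.log (R + 1) / (d : ℝ) ^ n := by
    filter_upwards [eventually_ge_atTop n] with k hk
    obtain ⟨j, rfl⟩ := Nat.exists_eq_add_of_le hk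
    rw [iter_P hd, show n + j + 1 = n + 1 + j by ring]
    have h3 := up_growth hd hR h1 h2 j
    have h4 : Real.posLog ‖P d (n + 1 + j) c‖ ≤ (d : ℝ) ^ j * Real.log (R + 1) := by
      have h5 : ‖P d (n + 1 + j) c‖ ≤ (R + 1) ^ (d ^ j) := by linarith
      have h6 : Real.posLog ‖P d (n + 1 + j) c‖ ≤ Real.posLog ((R + 1) ^ (d ^ j)) :=
        Real.monotoneOn_posLog (norm_nonneg _) (by positivity : (0 : ℝ) ≤ (R + 1) ^ (d ^ j)) h5
      refine h6.trans (le_of_eq ?_)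
      rw [Real.posLog_eq_log, Real.log_pow]
      · push_cast; ring
      · rw [abs_of_nonneg (by positivity)]
        exact one_le_pow₀ (by linarith)
    rw [pow_add, div_le_div_iff₀ (by positivity) (by positivity)]
    calc Real.posLog ‖P d (n + 1 + j) c‖ * (d : ℝ) ^ n
        ≤ ((d : ℝ) ^ j * Real.log (R + 1)) * (d : ℝ) ^ n := by gcongr
      _ = _ := by ring
  refine limsup_le_of_le ?_ hev
  refine isCoboundedUnder_le_of_le atTop (x := 0) fun k => ?_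
  exact div_nonneg Real.posLog_nonneg (by positivity)

/-- upper bound of the escape rate when the orbit stays bounded for a long time -/
theorem rate_le {d : ℕ} (hd : 2 ≤ d) {ψ : ℂ → ℂ} (hψ : IsExteriorMap (multibrotSet d) ψ)
    {z : ℂ} (hz : 1 < ‖z‖) {R : ℝ} (hR : 2 ≤ R)
    {n : ℕ} (h1 : ‖ψ z‖ ≤ R) (h2 : ‖P d (n + 1) (ψ z)‖ ≤ R) :
    Real.log ‖z‖ ≤ Real.log (R + 1) / (d : ℝ) ^ n := by
  have hmain : ‖z‖ ^ (d ^ n) ≤ R + 1 := by
    obtain ⟨β, hβ⟩ := exists_beta (d := d) hd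
    rw [exteriorMap_unique hβ hψ hz] at h1 h2
    obtain ⟨hx, hx0⟩ := inv_mem_ball hz
    obtain ⟨c, hc⟩ : ∃ c, c = z * β z⁻¹ := ⟨_, rfl⟩
    rw [← hc] at h1 h2
    have hgrow : ∀ j, ‖P d (n + 1 + j) c‖ ≤ (R + 1) ^ (d ^ j) - 1 := fun j =>
      up_growth hd hR h1 h2 j
    obtain ⟨κ, hκ⟩ : ∃ κ, κ = Real.exp (-(2 * Real.log 2 * ‖z⁻¹‖ / (1 - ‖z⁻¹‖))) := ⟨_, rfl⟩
    have hκ0 : 0 < κ := by rw [hκ]; exact Real.exp_pos _
    by_contra hcon
    push Not at hcon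
    have hzpos : 0 < ‖z‖ := by linarith
    have key : ∀ j, κ ≤ ((R + 1) / ‖z‖ ^ (d ^ n)) ^ (d ^ j) := by
      intro j
      have h3 := Pool.Agent.W677.MB.BB_lower hd hβ (n + j) hx
      rw [← hκ, BB_eq hd β (n + j) z⁻¹ hx0, inv_inv, ← hc, norm_mul, norm_pow, norm_inv] at h3
      have h4 := hgrow j
      rw [show n + 1 + j = n + j + 1 by ring] at h4
      have h5 : ‖z‖⁻¹ ^ d ^ (n + j) * ‖P d (n + j + 1) c‖ ≤
          ‖z‖⁻¹ ^ d ^ (n + j) * (R + 1) ^ (d ^ j) :=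
        mul_le_mul_of_nonneg_left (by linarith) (by positivity)
      refine h3.trans (h5.trans (le_of_eq ?_))
      rw [div_pow, ← pow_mul, ← pow_add, inv_pow]
      field_simp
    have hlt : (R + 1) / ‖z‖ ^ (d ^ n) < 1 := by
      rw [div_lt_one (by positivity)]
      exact hcon
    have hlim : Tendsto (fun j : ℕ => ((R + 1) / ‖z‖ ^ (d ^ n)) ^ (d ^ j)) atTop (𝓝 0) :=
      (tendsto_pow_atTop_nhds_zero_of_lt_one (by positivity) hlt).comp
        (tendsto_pow_atTop_atTop_of_one_lt (by omega : 1 < d))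
    have := ge_of_tendsto' hlim key
    linarith
  have hd0 : (0 : ℝ) < (d : ℝ) ^ n := by
    have : (0 : ℝ) < d := by exact_mod_cast (by omega : 0 < d)
    positivity
  rw [le_div_iff₀ hd0]
  have h7 := Real.log_le_log (by positivity) hmain
  rw [Real.log_pow] at h7
  push_cast at h7
  linarith

/-- The constants. -/
noncomputable def R1 (ε : ℝ) : ℝ := 2 * (1 + ε) / ε + 4

theorem R1_ge {ε : ℝ} (hε : 0 < ε) : 4 ≤ R1 ε := by
  unfold R1
  have : 0 ≤ 2 * (1 + ε) / ε := by positivity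
  linarith

theorem BE_ge (ε : ℝ) : 1 ≤ BE ε := SB_ge

noncomputable def CE (d : ℕ) (ε : ℝ) : ℝ := d ^ 2 * Real.log (R1 ε * BE ε + 1) + 1

theorem CE_pos {d : ℕ} {ε : ℝ} (hε : 0 < ε) : 0 < CE d ε := by
  unfold CE
  have h1 := R1_ge hε
  have h2 := BE_ge ε
  have h3 : 0 ≤ Real.log (R1 ε * BE ε + 1) := Real.log_nonneg (by nlinarith)
  positivity

/-- A rate: an upper bound of the escape rate by bounded orbits. -/
def Rate (d : ℕ) (c : ℂ) (g : ℝ) : Prop := ∀ R : ℝ, 2 ≤ R → ‖c‖ ≤ R → ∀ n : ℕ,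
  ‖P d (n + 1) c‖ ≤ R → g ≤ Real.log (R + 1) / (d : ℝ) ^ n

theorem rate_green {d : ℕ} (hd : 2 ≤ d) (c : ℂ) : Rate d c (green d c) :=
  fun _ hR h1 _ h2 => green_le hd hR h1 h2

theorem rate_psi {d : ℕ} (hd : 2 ≤ d) {ψ : ℂ → ℂ} (hψ : IsExteriorMap (multibrotSet d) ψ)
    {z : ℂ} (hz : 1 < ‖z‖) : Rate d (ψ z) (Real.log ‖z‖) :=
  fun _ hR h1 _ h2 => rate_le hd hψ hz hR h1 h2

/-- The escape rate forces a superattracting parameter of bounded period. -/
theorem key {d : ℕ} (hd : 2 ≤ d) {ε : ℝ} (hε : 0 < ε) {x c₁ c₂ : ℂ} {R : ℝ} (hR : 0 < R)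
    (h1 : ‖c₁ - x‖ * (1 + ε) ≤ R) (h2 : ‖c₂ - x‖ * (1 + ε) ≤ R) (hx : x = c₁ ∨ x = c₂)
    (hm : c₁ ∈ multibrotSet d) (h4 : 1 / 16 ≤ ‖c₁‖) (h5 : ‖c₂‖ ≤ R1 ε) {g : ℝ}
    (hg : Rate d c₂ g) {N : ℕ} (hN : 1 ≤ N) (hgN : CE d ε ≤ g * (d : ℝ) ^ N) :
    ∃ c' ∈ ball x R, Cn d N c' := by
  have hdR : (2 : ℝ) ≤ d := by exact_mod_cast hd
  have hd0 : (0 : ℝ) < d := by linarith
  have hR1 := R1_ge hε
  have hB := BE_ge ε
  by_contra hcon
  have hlog : 0 ≤ Real.log (R1 ε * BE ε + 1) := Real.log_nonneg (by nlinarith)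
  rcases Nat.lt_or_ge N 2 with hN2 | hN2
  · have hN1 : N = 1 := by omega
    subst hN1
    have h6 := hg (R1 ε) (by linarith) h5 0 (by rw [zero_add, P_one hd]; exact h5)
    rw [pow_zero, div_one] at h6
    have h7 : Real.log (R1 ε + 1) ≤ Real.log (R1 ε * BE ε + 1) := by
      apply Real.log_le_log (by linarith)
      nlinarith
    unfold CE at hgN
    rw [pow_one] at hgN
    have h8 : g * d ≤ Real.log (R1 ε * BE ε + 1) * d := by
      apply mul_le_mul_of_nonneg_right (h6.trans h7) hd0.le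
    have h9 := mul_nonneg (mul_nonneg hlog hd0.le) (by linarith : (0 : ℝ) ≤ (d : ℝ) - 1)
    nlinarith
  · obtain ⟨N', rfl⟩ := Nat.exists_eq_add_of_le hN2
    have hno : ∀ t ∈ ball x R, ∀ p : ℕ, 1 ≤ p → p ≤ (1 + N') + 1 → P d p t ≠ 0 := by
      intro t ht p hp1 hp2 h
      exact hcon ⟨t, ht, p, hp1, by omega, h⟩
    have h6 := in_disc hd hR hε hno h1 h2 hx hm h4 (k := N' + 1) (by omega) (by omega)
    have h7 : ‖P d (N' + 1) c₂‖ ≤ R1 ε * BE ε := by
      refine h6.trans ?_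
      apply mul_le_mul_of_nonneg_right _ (by linarith)
      exact max_le (by linarith) h5
    have h8 := hg (R1 ε * BE ε) (by nlinarith) (h5.trans (by nlinarith)) N' h7
    rw [le_div_iff₀ (by positivity)] at h8
    unfold CE at hgN
    rw [pow_add] at hgN
    have h9 : g * ((d : ℝ) ^ 2 * d ^ N') ≤ d ^ 2 * Real.log (R1 ε * BE ε + 1) := by
      calc g * ((d : ℝ) ^ 2 * d ^ N') = d ^ 2 * (g * d ^ N') := by ring
        _ ≤ _ := by gcongr
    linarith

theorem isCompact_M {d : ℕ} (hd : 2 ≤ d) : IsCompact (multibrotSet d) := by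
  refine Metric.isCompact_of_isClosed_isBounded ?_ ?_
  · have h : multibrotSet d = ⋂ k : ℕ, {c | ‖P d k c‖ ≤ 2} := by
      ext c
      rw [mem_multibrot_iff hd, mem_iInter]
      rfl
    rw [h]
    exact isClosed_iInter fun k =>
      isClosed_le (differentiable_P d k).continuous.norm continuous_const
  · refine (Metric.isBounded_closedBall (x := (0 : ℂ)) (r := 2)).subset ?_
    intro c hc
    have h1 := (mem_multibrot_iff hd c).1 hc 1
    rw [P_one hd] at h1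
    simpa using h1

/-- The nearest point of the Multibrot set. -/
theorem nearest {d : ℕ} (hd : 2 ≤ d) {c : ℂ} (hc : c ∉ multibrotSet d) :
    0 < infDist c (multibrotSet d) ∧ ∃ c₁ ∈ multibrotSet d,
      ‖c₁ - c‖ = infDist c (multibrotSet d) ∧ ‖c₁‖ ≤ 2 ∧ 1 / 16 ≤ ‖c₁‖ := by
  have hcomp := isCompact_M hd
  have hne : (multibrotSet d).Nonempty := ⟨0, quarter hd (by simp)⟩
  obtain ⟨c₁, hc₁, hdist⟩ := hcomp.exists_infDist_eq_dist hne c
  have hδ : 0 < infDist c (multibrotSet d) :=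
    (hcomp.isClosed.notMem_iff_infDist_pos hne).1 hc
  set δ := infDist c (multibrotSet d) with hδd
  have hc₁n : ‖c₁ - c‖ = δ := by rw [hdist, dist_comm, dist_eq_norm]
  have hbd : ‖c₁‖ ≤ 2 := by
    have h1 := (mem_multibrot_iff hd c₁).1 hc₁ 1
    rwa [P_one hd] at h1
  refine ⟨hδ, c₁, hc₁, hc₁n, hbd, ?_⟩
  by_contra hlt
  rw [not_le] at hlt
  -- a nearer point
  have hδ' : 0 < δ := hδ
  set t : ℝ := min 1 (1 / (16 * δ)) with ht
  have ht0 : 0 < t := by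
    rw [ht]
    exact lt_min one_pos (by positivity)
  have ht1 : t ≤ 1 := min_le_left _ _
  have htδ : t * δ ≤ 1 / 16 := by
    calc t * δ ≤ 1 / (16 * δ) * δ := by gcongr; exact min_le_right _ _
      _ = 1 / 16 := by field_simp
  have hmem : c₁ + t * (c - c₁) ∈ multibrotSet d := by
    apply quarter hd
    refine (norm_add_le _ _).trans ?_
    rw [norm_mul, Complex.norm_real, Real.norm_of_nonneg ht0.le, norm_sub_rev, hc₁n]
    linarith
  have h1 := infDist_le_dist_of_mem (x := c) hmem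
  rw [← hδd, dist_eq_norm] at h1
  have h2 : c - (c₁ + t * (c - c₁)) = ((1 - t : ℝ) : ℂ) * (c - c₁) := by
    push_cast; ring
  rw [h2, norm_mul, Complex.norm_real, Real.norm_of_nonneg (by linarith), norm_sub_rev c c₁,
    hc₁n] at h1
  nlinarith

/-- Parameters outside the Multibrot set: the distance to the Multibrot set is, up to the factor
`1 + ε`, the distance to the superattracting parameters of bounded period. -/
theorem outside {d : ℕ} (hd : 2 ≤ d) {ε : ℝ} (hε : 0 < ε) {c : ℂ} (hc : c ∉ multibrotSet d)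
    {g : ℝ} (hg : Rate d c g) {N : ℕ} (hN : 1 ≤ N) (hgN : CE d ε ≤ g * (d : ℝ) ^ N) :
    ∃ c', Cn d N c' ∧ ‖c' - c‖ ≤ (1 + ε) * infDist c (multibrotSet d) := by
  obtain ⟨hδ, c₁, hc₁, hc₁n, hbd, h16⟩ := nearest hd hc
  set δ := infDist c (multibrotSet d) with hδd
  by_cases hbig : R1 ε < ‖c‖
  · refine ⟨0, cn_zero hd hN, ?_⟩
    rw [zero_sub, norm_neg]
    have h1 : ‖c‖ ≤ δ + 2 := by
      have := norm_sub_norm_le c c₁
      rw [norm_sub_rev, hc₁n] at this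
      linarith
    unfold R1 at hbig
    have h2 : 2 * (1 + ε) / ε < ‖c‖ := by linarith
    rw [div_lt_iff₀ hε] at h2
    nlinarith
  · rw [not_lt] at hbig
    obtain ⟨c', hc', hcn⟩ := key hd hε (x := c) (c₁ := c₁) (c₂ := c) (R := (1 + ε) * δ)
      (by positivity) (by rw [hc₁n]; linarith) (by rw [sub_self, norm_zero, zero_mul]; positivity)
      (Or.inr rfl) hc₁ h16 hbig hg hN hgN
    refine ⟨c', hcn, ?_⟩
    rw [mem_ball, dist_eq_norm] at hc'
    exact hc'.le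

/-- The escape time. -/
theorem escape {d : ℕ} (hd : 2 ≤ d) {ε : ℝ} (hε : 0 < ε) {c : ℂ} (hc : c ∉ multibrotSet d)
    {n : ℕ} (hn : BE ε * max 1 ‖c‖ < ‖P d n c‖) :
    ∃ c', Cn d (n + 1) c' ∧ ‖c' - c‖ ≤ (1 + ε) * infDist c (multibrotSet d) := by
  obtain ⟨hδ, c₁, hc₁, hc₁n, hbd, h16⟩ := nearest hd hc
  set δ := infDist c (multibrotSet d) with hδd
  have hn1 : 1 ≤ n := by
    rcases Nat.eq_zero_or_pos n with h | h
    · exfalso
      rw [h, P_zero, norm_zero] at hn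
      have h1 : 0 ≤ BE ε * max 1 ‖c‖ :=
        mul_nonneg (le_trans zero_le_one (BE_ge ε)) (le_trans zero_le_one (le_max_left _ _))
      linarith
    · exact h
  by_contra hcon
  have hno : ∀ t ∈ ball c ((1 + ε) * δ), ∀ p : ℕ, 1 ≤ p → p ≤ n + 1 → P d p t ≠ 0 := by
    intro t ht p hp1 hp2 h
    rw [mem_ball, dist_eq_norm] at ht
    exact hcon ⟨t, ⟨p, hp1, hp2, h⟩, ht.le⟩
  have h6 := in_disc hd (x := c) (c₁ := c₁) (c₂ := c) (R := (1 + ε) * δ) (by positivity) hε hno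
    (by rw [hc₁n]; linarith) (by rw [sub_self, norm_zero, zero_mul]; positivity)
    (Or.inr rfl) hc₁ h16 hn1 le_rfl
  rw [mul_comm] at h6
  linarith

/-- Parameters of the Multibrot set with an escaping parameter nearby. -/
theorem inside {d : ℕ} (hd : 2 ≤ d) {ε : ℝ} (hε : 0 < ε) {c₀ c : ℂ} (hc₀ : c₀ ∈ multibrotSet d)
    (hc : c ∉ multibrotSet d) {r : ℝ} (hr : ‖c - c₀‖ ≤ r)
    {g : ℝ} (hg : Rate d c g) {N : ℕ} (hN : 1 ≤ N) (hgN : CE d ε ≤ g * (d : ℝ) ^ N) :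
    ∃ c', Cn d N c' ∧ ‖c' - c₀‖ < (1 + ε) * r := by
  have hbd : ‖c₀‖ ≤ 2 := by
    have h1 := (mem_multibrot_iff hd c₀).1 hc₀ 1
    rwa [P_one hd] at h1
  have hr0 : 0 < r := by
    have h1 : c ≠ c₀ := by rintro rfl; exact hc hc₀
    exact (norm_pos_iff.2 (sub_ne_zero.2 h1)).trans_le hr
  have hcq : 1 / 4 < ‖c‖ := by
    by_contra hlt
    exact hc (quarter hd (not_lt.1 hlt))
  by_cases hsmall : ‖c₀‖ < (1 + ε) * r
  · refine ⟨0, cn_zero hd hN, ?_⟩
    rw [zero_sub, norm_neg]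
    exact hsmall
  · rw [not_lt] at hsmall
    have h1 : r ≤ ‖c₀‖ := by nlinarith
    have h16 : 1 / 16 ≤ ‖c₀‖ := by
      have := norm_sub_norm_le c c₀
      linarith
    have h5 : ‖c‖ ≤ R1 ε := by
      have := norm_sub_norm_le c c₀
      have := R1_ge hε
      linarith
    obtain ⟨c', hc', hcn⟩ := key hd hε (x := c₀) (c₁ := c₀) (c₂ := c) (R := (1 + ε) * r)
      (by positivity) (by rw [sub_self, norm_zero, zero_mul]; positivity) (by nlinarith)
      (Or.inl rfl) hc₀ h16 h5 hg hN hgN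
    refine ⟨c', hcn, ?_⟩
    rw [mem_ball, dist_eq_norm] at hc'
    exact hc'

end Pool.Agent.Q186.Cen
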